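import Pool.Agent.Lib.MP_ca56d1_nt.SUnit

/-! Square classes with even valuation outside a finite set, from small norm relations. -/

namespace Pool.Agent.Lib.MP_ab8df0_nt.A

open NumberField IsDedekindDomain Pool.Agent.Stark Ideal
open scoped nonZeroDivisors

variable {F : Type*} [Field F] [NumberField F]

/-- The absolute value of the norm. -/
noncomputable def nm (x : 𝓞 F) : ℕ := (Algebra.norm ℤ x).natAbs

theorem absNorm_span (x : 𝓞 F) : absNorm (span {x}) = nm x := absNorm_span_singleton x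

/-- The divisor of an ideal. -/
noncomputable def dI (I : Ideal (𝓞 F)) : Dv F :=
  Finsupp.ofSupportFinite (fun q => FractionalIdeal.count F q (I : FractionalIdeal (𝓞 F)⁰ F))
    (FractionalIdeal.finite_factors _)

theorem dI_apply (I : Ideal (𝓞 F)) (q : Pr F) :
    dI I q = FractionalIdeal.count F q (I : FractionalIdeal (𝓞 F)⁰ F) := rfl

theorem dI_mul {I J : Ideal (𝓞 F)} (hI : I ≠ 0) (hJ : J ≠ 0) : dI (I * J) = dI I + dI J :=
  Finsupp.ext fun q => by
    rw [Finsupp.add_apply, dI_apply, dI_apply, dI_apply, FractionalIdeal.coeIdeal_mul,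
      FractionalIdeal.count_mul F q (FractionalIdeal.coeIdeal_ne_zero.2 hI)
        (FractionalIdeal.coeIdeal_ne_zero.2 hJ)]

theorem dI_prime (q : Pr F) : dI q.asIdeal = Finsupp.single q 1 := by
  classical
  refine Finsupp.ext fun w => ?_
  rw [dI_apply, FractionalIdeal.count_maximal, Finsupp.single_apply]

theorem dI_span {x : 𝓞 F} (hx : x ≠ 0) : dI (span {x}) = dv (x : F) :=
  Finsupp.ext fun q => by
    rw [dI_apply, dv_apply, ← ComplAux.count_span q (by simpa using hx),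
      FractionalIdeal.coeIdeal_span_singleton]

theorem pair_dI (ψ : Pr F → ZMod 2) {I : Ideal (𝓞 F)} (hI : I ≠ 0)
    (h : ∀ q : Pr F, q.asIdeal ∣ I → ψ q = 0) : pair ψ (dI I) = 0 := by
  classical
  rw [pair_eq_sum ψ _ ∅ fun q _ => ?_, Finset.sum_empty]
  by_cases hq : q.asIdeal ∣ I
  · rw [h q hq, mul_zero]
  · rw [dI_apply, FractionalIdeal.count_coe F q hI,
      not_not.1 ((Associates.count_ne_zero_iff_dvd hI q.irreducible).not.2 hq)]
    simp

theorem char_pow (q : Pr F) : ∃ p n : ℕ, p.Prime ∧ 0 < n ∧ (p : 𝓞 F) ∈ q.asIdeal ∧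
    absNorm q.asIdeal = p ^ n := by
  have := q.isMaximal
  obtain ⟨p, n, h1, h2, h3, h4⟩ := exists_prime_and_absNorm_eq_pow q.asIdeal
  exact ⟨p, n, h3, h1, h2, h4⟩

theorem cop_norm (N : ℕ) (q : Pr F) (h : (N : 𝓞 F) ∉ q.asIdeal) :
    (absNorm q.asIdeal).Coprime N := by
  obtain ⟨p, n, h1, -, h3, h4⟩ := char_pow q
  rw [h4]
  refine Nat.Coprime.pow_left _ ((Nat.Prime.coprime_iff_not_dvd h1).2 ?_)
  rintro ⟨c, rfl⟩
  exact h (by rw [Nat.cast_mul]; exact q.asIdeal.mul_mem_right _ h3)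

/-- The prime contains an element whose norm, up to the bad primes, is small. -/
def Rel (N : ℕ) (q : Pr F) : Prop :=
  ∃ β ∈ q.asIdeal, nm β ≠ 0 ∧ nm β / Nat.gcd (nm β) (N ^ 64) < absNorm q.asIdeal ^ 2

theorem chr_zero (N M : ℕ) (S : Finset (Pr F)) (hS : ∀ q : Pr F, (N : 𝓞 F) ∈ q.asIdeal → q ∈ S)
    (hM : ∀ C, ∃ I : (Ideal (𝓞 F))⁰, ClassGroup.mk0 I = C ∧ absNorm (I : Ideal (𝓞 F)) ≤ M)
    (H : ∀ q : Pr F, (N : 𝓞 F) ∉ q.asIdeal → absNorm q.asIdeal ≤ M → Rel N q)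
    (ψ : Pr F → ZMod 2) (hψ : ψ ∈ Chr S) : ψ = 0 := by
  have small : ∀ (n : ℕ) (q : Pr F), absNorm q.asIdeal = n → n ≤ M → ψ q = 0 := by
    intro n
    induction n using Nat.strong_induction_on with
    | _ n ih =>
    intro q hn hle
    by_cases hN : (N : 𝓞 F) ∈ q.asIdeal
    · exact hψ.1 q (hS q hN)
    obtain ⟨β, hβ, h0, hlt⟩ := H q hN (hn ▸ hle)
    have hβ0 : β ≠ 0 := by rintro rfl; simp [nm] at h0
    obtain ⟨I, hI⟩ : q.asIdeal ∣ span {β} := dvd_iff_le.2 ((span_singleton_le_iff_mem _).2 hβ)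
    have hI0 : I ≠ 0 := by
      rintro rfl
      exact hβ0 (by simpa using hI)
    have h1 := hψ.2 (β : F)
    rw [← dI_span hβ0, hI, dI_mul q.ne_bot hI0, pair_add, dI_prime, SUnitAux.pair_single,
      pair_dI ψ hI0 fun Q hQ => ?_, add_zero] at h1
    · exact h1
    by_cases hN' : (N : 𝓞 F) ∈ Q.asIdeal
    · exact hψ.1 Q (hS Q hN')
    have h2 : absNorm q.asIdeal * absNorm Q.asIdeal ∣ nm β := by
      rw [← absNorm_span, hI, map_mul]
      exact mul_dvd_mul_left _ (map_dvd absNorm hQ)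
    have h3 : (absNorm q.asIdeal * absNorm Q.asIdeal).Coprime (Nat.gcd (nm β) (N ^ 64)) :=
      Nat.Coprime.coprime_dvd_right (Nat.gcd_dvd_right _ _)
        (Nat.Coprime.pow_right _ (Nat.Coprime.mul_left (cop_norm N q hN) (cop_norm N Q hN')))
    have h4 : nm β = nm β / Nat.gcd (nm β) (N ^ 64) * Nat.gcd (nm β) (N ^ 64) :=
      (Nat.div_mul_cancel (Nat.gcd_dvd_left _ _)).symm
    have h5 : nm β / Nat.gcd (nm β) (N ^ 64) ≠ 0 := fun h => h0 (by rw [h4, h, zero_mul])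
    have h6 := Nat.le_of_dvd (Nat.pos_of_ne_zero h5) (h3.dvd_of_dvd_mul_right (h4 ▸ h2))
    have h7 : absNorm Q.asIdeal < n := by
      rw [← hn]
      exact Nat.lt_of_mul_lt_mul_left (a := absNorm q.asIdeal) (by rw [← sq]; omega)
    exact ih _ h7 Q rfl (by omega)
  funext q
  obtain ⟨I, hI, hle⟩ := hM (ClassGroup.mk0 ⟨q.asIdeal, mem_nonZeroDivisors_of_ne_zero q.ne_bot⟩)
  obtain ⟨x, y, hx, hy, h⟩ := ClassGroup.mk0_eq_mk0_iff.1 hI
  have hI0 : (I : Ideal (𝓞 F)) ≠ 0 := nonZeroDivisors.coe_ne_zero I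
  have h1 := congrArg (fun J => pair ψ (dI J)) h
  simp only at h1
  rw [dI_mul (by simpa using hx) hI0, dI_mul (by simpa using hy) q.ne_bot, pair_add, pair_add,
    dI_span hx, dI_span hy, hψ.2, hψ.2, dI_prime, SUnitAux.pair_single, pair_dI ψ hI0 fun Q hQ =>
      small _ Q rfl ((Nat.le_of_dvd (absNorm_pos_of_nonZeroDivisors I)
        (map_dvd absNorm hQ)).trans hle)] at h1
  simpa using h1.symm

/-- The product of a subfamily. -/
def sub {R : Type*} [CommMonoid R] {k : ℕ} (g : Fin k → R) (e : Fin k → Bool) : R :=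
  ∏ i, if e i then g i else 1

theorem sub_mul {R : Type*} [CommMonoid R] {k : ℕ} (g : Fin k → R) (e e' : Fin k → Bool) :
    sub g e * sub g e' = sub g (fun i => xor (e i) (e' i)) * sub g (fun i => e i && e' i) ^ 2 := by
  rw [sub, sub, sub, sub, ← Finset.prod_pow, ← Finset.prod_mul_distrib, ← Finset.prod_mul_distrib]
  refine Finset.prod_congr rfl fun i _ => ?_
  cases e i <;> cases e' i <;> simp [sq]

theorem isSel_sub (S : Finset (Pr F)) {k : ℕ} (g : Fin k → F) (hg : ∀ i, IsSel S (g i))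
    (e : Fin k → Bool) : IsSel S (sub g e) := by
  refine Finset.prod_induction _ (IsSel S) (fun a b ha hb => ⟨mul_ne_zero ha.1 hb.1, fun q hq => ?_⟩)
    ⟨one_ne_zero, fun q _ => by simp [og]⟩ fun i _ => ?_
  · rw [SUnitAux.og_mul q ha.1 hb.1]
    exact (ha.2 q hq).add (hb.2 q hq)
  · split_ifs
    · exact hg i
    · exact ⟨one_ne_zero, fun q _ => by simp [og]⟩

theorem sel_span (S : Finset (Pr F)) (hC : ∀ ψ ∈ Chr S, ψ = 0) {k : ℕ} (g : Fin k → F)
    (hg : ∀ i, IsSel S (g i)) (hind : ∀ e, IsSquare (sub g e) → ∀ i, e i = false)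
    (hk : Fintype.card (InfinitePlace F) + S.card ≤ k) (ξ : F) (hξ : IsSel S ξ) :
    ∃ e u, ξ = sub g e * u ^ 2 := by
  have h1 : Nat.card (Chr S) = 1 := by
    rw [Nat.card_eq_one_iff_unique]
    exact ⟨⟨fun a b => Subtype.ext ((hC _ a.2).trans (hC _ b.2).symm)⟩, ⟨0⟩⟩
  have h2 := SUnitAux.card_Sel S
  rw [h1, mul_one] at h2
  have : Finite (Sel S) := Nat.finite_of_card_ne_zero (by rw [h2]; positivity)
  let Φ : (Fin k → Bool) → Sel S := fun e => ⟨cl (sub g e), _, isSel_sub S g hg e, rfl⟩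
  have hne := fun e => (isSel_sub S g hg e).1
  have hinj : Function.Injective Φ := fun e e' h => by
    obtain ⟨r, hr⟩ := (cl_eq_cl (hne e) (hne e')).1 (congrArg Subtype.val h)
    rw [sub_mul] at hr
    have := hind (fun i => xor (e i) (e' i)) ⟨r / sub g (fun i => e i && e' i), by
      have := hne fun i => e i && e' i
      field_simp
      rw [hr, sq]⟩
    funext i
    have := this i
    revert this
    cases e i <;> cases e' i <;> simp
  have hbij : Function.Bijective Φ := hinj.bijective_of_nat_card_le (by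
    rw [h2, Nat.card_eq_fintype_card, Fintype.card_fun, Fintype.card_bool, Fintype.card_fin]
    exact Nat.pow_le_pow_right two_pos hk)
  obtain ⟨e, he⟩ := hbij.2 ⟨cl ξ, ξ, hξ, rfl⟩
  obtain ⟨r, hr⟩ := (cl_eq_cl (hne e) hξ.1).1 (congrArg Subtype.val he)
  refine ⟨e, r / sub g e, ?_⟩
  have := hne e
  field_simp
  rw [mul_comm, hr, sq]

theorem isSel_of_val (N : ℕ) (S : Finset (Pr F))
    (hS : ∀ q : Pr F, (N : 𝓞 F) ∈ q.asIdeal → q ∈ S) {ξ : F} (h0 : ξ ≠ 0)
    (h : ∀ v : HeightOneSpectrum (𝓞 F), (N : 𝓞 F) ∉ v.asIdeal →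
      ∃ k : ℤ, v.valuation F ξ = WithZero.exp (2 * k)) : IsSel S ξ :=
  ⟨h0, fun q hq => by
    obtain ⟨k, hk⟩ := h q fun h' => hq (hS q h')
    rw [og, ord, hk, WithZero.log_exp]
    exact ⟨-k, by ring⟩⟩

theorem isSel_of_nm (N : ℕ) (S : Finset (Pr F))
    (hS : ∀ q : Pr F, (N : 𝓞 F) ∈ q.asIdeal → q ∈ S) (x : 𝓞 F) (h0 : nm x ≠ 0)
    (h : nm x ∣ N ^ 64) : IsSel S (x : F) := by
  have hx : x ≠ 0 := by rintro rfl; simp [nm] at h0
  refine ⟨by simpa using hx, fun q hq => ?_⟩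
  have h1 : x ∉ q.asIdeal := fun h1 => by
    have h2 : absNorm q.asIdeal ∣ N ^ 64 := by
      refine Dvd.dvd.trans ?_ h
      rw [← absNorm_span]
      exact absNorm_dvd_absNorm_of_le ((span_singleton_le_iff_mem _).2 h1)
    have h3 := Nat.Coprime.eq_one_of_dvd
      (Nat.Coprime.pow_right 64 (cop_norm N q fun h' => hq (hS q h'))) h2
    exact q.isPrime.ne_top (absNorm_eq_one_iff.1 h3)
  rw [le_antisymm (not_lt.1 ((og_pos_iff q hx).not.2 h1)) (og_nonneg q x)]
  exact Even.zero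

end Pool.Agent.Lib.MP_ab8df0_nt.A
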