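import Pool.Agent.Lib.MP_ab8df0_nt.A.Small

/-! Integral elements with denominators, the discriminant, the number of infinite places. -/

namespace Pool.Agent.Lib.MP_ab8df0_nt.A

open NumberField Pool.Agent.Stark Ideal Polynomial Module

/-- Homogeneous Horner evaluation at `l / d` modulo the monic polynomial. -/
def hevM (fl l : List ℤ) (d : ℤ) : List ℤ → List ℤ
  | [] => []
  | c :: cs => addL [c * d ^ cs.length] (mulM fl l (hevM fl l d cs))

theorem ev_hevM {R : Type*} [CommRing R] {a g : R} {fl l : List ℤ} {d : ℤ}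
    (h : a ^ fl.length + ev a fl = 0) (hg : d * g = ev a l) (cs : List ℤ) :
    d * ev a (hevM fl l d cs) = d ^ cs.length * ev g cs := by
  induction cs with
  | nil => simp [hevM]
  | cons c cs ih =>
    rw [hevM, ev_addL, ev_mulM h, ← hg, ev_cons, ev_cons, ev_nil, List.length_cons]
    push_cast
    linear_combination d * g * ih

variable {F : Type*} [Field F] [NumberField F] {α : 𝓞 F} {fl : List ℤ}

/-- `l / d` is a root of the monic polynomial with lower coefficients `gl`. -/
def intOK (fl l : List ℤ) (d : ℤ) (gl : List ℤ) : Bool :=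
  decide (d ≠ 0) && dvdL 0 (hevM fl l d (gl ++ [1]))

theorem exists_int (h : α ^ fl.length + ev α fl = 0) {l gl : List ℤ} {d : ℤ}
    (hc : intOK fl l d gl = true) :
    ∃ γ : 𝓞 F, d * γ = ev α l ∧ γ ^ gl.length + ev γ gl = 0 := by
  simp only [intOK, Bool.and_eq_true, decide_eq_true_eq] at hc
  have hd : (d : F) ≠ 0 := by exact_mod_cast hc.1
  have hF : (α : F) ^ fl.length + ev (α : F) fl = 0 := by
    simpa [← coe_ev] using congrArg (algebraMap (𝓞 F) F) h
  have h1 : (d : F) * (ev (α : F) l / d) = ev (α : F) l := mul_div_cancel₀ _ hd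
  have h2 := ev_hevM hF h1 (gl ++ [1])
  rw [ev_dvdL _ Int.cast_zero hc.2, mul_zero, ev_append_one] at h2
  have h3 := (mul_eq_zero.1 h2.symm).resolve_left (pow_ne_zero _ hd)
  refine ⟨⟨ev (α : F) l / d, mp gl, monic_mp gl, by rw [← aeval_def, aeval_mp, h3]⟩,
    RingOfIntegers.ext ?_, RingOfIntegers.ext ?_⟩
  · simpa [coe_ev] using h1
  · simpa [coe_ev] using h3

theorem ev_mem {a : F} (K : IntermediateField ℚ F) (h : a ∈ K) (l : List ℤ) : ev a l ∈ K := by
  induction l with
  | nil => exact zero_mem _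
  | cons c l ih => exact add_mem (intCast_mem _ c) (mul_mem h ih)

/-- `l / d` is another generator, and the first generator is `l' / d'` in terms of it. -/
def genOK (fl l : List ℤ) (d : ℤ) (gl l' : List ℤ) (d' : ℤ) : Bool :=
  intOK fl l d gl && decide (gl.length = fl.length) && decide (d' ≠ 0) &&
    eqL 0 (smL d (hevM fl l d l')) [0, d' * d ^ l'.length]

theorem Gen.other (h : Gen α fl) {l gl l' : List ℤ} {d d' : ℤ}
    (hc : genOK fl l d gl l' d' = true) : ∃ γ : 𝓞 F, d * γ = ev α l ∧ Gen γ gl := by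
  simp only [genOK, Bool.and_eq_true, decide_eq_true_eq] at hc
  obtain ⟨⟨⟨h1, h2⟩, h3⟩, h4⟩ := hc
  obtain ⟨γ, h5, h6⟩ := exists_int h.root h1
  simp only [intOK, Bool.and_eq_true, decide_eq_true_eq] at h1
  refine ⟨γ, h5, h.deg.trans h2.symm, ?_⟩
  have h7 := ev_eqL α Int.cast_zero h4
  rw [ev_smL, ev_hevM h.root h5] at h7
  have h8 : (α : F) = ev (γ : F) l' / d' := by
    have h9 := congrArg (algebraMap (𝓞 F) F) h7
    have hd : (d : F) ≠ 0 := by exact_mod_cast h1.1
    have hd' : (d' : F) ≠ 0 := by exact_mod_cast h3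
    rw [map_mul, map_pow, map_intCast, map_ev, map_ev, ev_cons, ev_cons, ev_nil] at h9
    push_cast at h9
    rw [eq_div_iff hd']
    exact mul_left_cancel₀ (pow_ne_zero l'.length hd) (by linear_combination -h9)
  have h9 : IntermediateField.adjoin ℚ {(γ : F)} = ⊤ := by
    rw [eq_top_iff, ← h.top, IntermediateField.adjoin_simple_le_iff, h8]
    exact div_mem (ev_mem _ (IntermediateField.mem_adjoin_simple_self ℚ _) _) (intCast_mem _ _)
  rw [Field.primitive_element_iff_minpoly_natDegree_eq] at h9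
  refine (eq_of_monic_of_dvd_of_natDegree_le (minpoly.monic (Algebra.IsIntegral.isIntegral _))
    ((monic_mp gl).map _) (minpoly.dvd _ _ ?_) ?_).symm
  · rw [← algebraMap_int_eq, aeval_map_algebraMap, aeval_mp]
    simpa [← coe_ev] using congrArg (algebraMap (𝓞 F) F) h6
  · rw [h9, (monic_mp gl).natDegree_map, natDegree_mp, h.deg, h2]

/-- The derivative. -/
def dL : List ℤ → List ℤ
  | [] => []
  | _ :: l => addL l (0 :: dL l)

theorem derivative_ev {R : Type*} [CommRing R] (l : List ℤ) :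
    derivative (ev (X : R[X]) l) = ev X (dL l) := by
  induction l with
  | nil => simp [dL]
  | cons c l ih => simp [dL, ev_addL, ih]

theorem ev_eq_sum {R : Type*} [CommRing R] (a : R) : ∀ (n : ℕ) (l : List ℤ), l.length ≤ n →
    ev a l = ∑ j : Fin n, (l.getD j 0 : ℤ) * a ^ (j : ℕ)
  | n, [], _ => by simp
  | n + 1, c :: l, h => by
    rw [ev_cons, ev_eq_sum a n l (by simpa using h), Fin.sum_univ_succ, Finset.mul_sum]
    simp [pow_succ', mul_left_comm]

theorem Gen.exists_pb (h : Gen α fl) : ∃ pb : PowerBasis ℚ F, pb.gen = α ∧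
    Algebra.discr ℚ pb.basis = (-1) ^ (finrank ℚ F * (finrank ℚ F - 1) / 2) *
      (Algebra.norm ℤ (ev α (dL (fl ++ [1]))) : ℤ) := by
  have h1 : Algebra.adjoin ℚ {(α : F)} = ⊤ := by
    rw [← IntermediateField.adjoin_simple_toSubalgebra_of_isAlgebraic
      (Algebra.IsAlgebraic.isAlgebraic _), h.top, IntermediateField.top_toSubalgebra]
  refine ⟨PowerBasis.ofAdjoinEqTop (Algebra.IsIntegral.isIntegral _) h1,
    PowerBasis.ofAdjoinEqTop_gen _ _, ?_⟩
  rw [Algebra.discr_powerBasis_eq_norm, PowerBasis.ofAdjoinEqTop_gen, h.mpe, map_mp,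
    ← ev_append_one, derivative_ev, Algebra.coe_norm_int, coe_ev]
  congr 2
  simpa using map_ev (aeval (α : F) : ℚ[X] →ₐ[ℚ] F).toRingHom X (dL (fl ++ [1]))

theorem discr_le {ι : Type*} [Fintype ι] [DecidableEq ι] (hι : Fintype.card ι = finrank ℚ F)
    (b : ι → 𝓞 F) (h : Algebra.discr ℚ (fun i => (b i : F)) ≠ 0) :
    |(discr F : ℚ)| ≤ |Algebra.discr ℚ fun i => (b i : F)| := by
  let e : Free.ChooseBasisIndex ℤ (𝓞 F) ≃ ι := Fintype.equivOfCardEq (by
    rw [hι, ← finrank_eq_card_chooseBasisIndex, RingOfIntegers.rank])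
  let Q : Matrix ι ι ℤ := fun i j => (RingOfIntegers.basis F).repr (b i) (e.symm j)
  have h1 : (fun i => (b i : F)) = ((Q.map (Int.castRingHom ℚ)).map (algebraMap ℚ F)).mulVec
      (integralBasis F ∘ e.symm) := by
    funext i
    conv_lhs => rw [← (integralBasis F).sum_repr (b i), ← e.symm.sum_comp]
    simp [Matrix.mulVec, dotProduct, Q, integralBasis_repr_apply, Algebra.smul_def]
  rw [h1, Algebra.discr_of_matrix_mulVec, Algebra.discr_reindex, ← coe_discr,
    ← RingHom.mapMatrix_apply, ← RingHom.map_det] at h ⊢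
  have h2 : Q.det ≠ 0 := fun h0 => h (by simp [h0])
  have h3 : (1 : ℚ) ≤ (Q.det : ℚ) ^ 2 := by exact_mod_cast (one_le_sq_iff_one_le_abs _).2 (Int.one_le_abs h2)
  rw [abs_mul, abs_sq]
  exact le_mul_of_one_le_left (abs_nonneg _) h3

/-- A triangular family of integral elements. -/
def basOK (fl : List ℤ) (bs : List (List ℤ × ℤ × List ℤ)) : Bool :=
  (List.range fl.length).all fun i => (fun b : List ℤ × ℤ × List ℤ =>
    intOK fl b.1 b.2.1 b.2.2 && decide (b.1.length ≤ i + 1) && decide (b.1.getD i 0 = 1))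
      (bs.getD i ([], 0, []))

/-- The index of the power basis in the family. -/
def idx (n : ℕ) (bs : List (List ℤ × ℤ × List ℤ)) : ℕ :=
  ∏ i : Fin n, (bs.getD i ([], 0, [])).2.1.natAbs

theorem Gen.discr_le (h : Gen α fl) {bs : List (List ℤ × ℤ × List ℤ)} (hb : basOK fl bs = true)
    (h0 : nm (ev α (dL (fl ++ [1]))) ≠ 0) :
    (discr F).natAbs * idx fl.length bs ^ 2 ≤ nm (ev α (dL (fl ++ [1]))) := by
  obtain ⟨pb, h1, h2⟩ := h.exists_pb
  have hn : pb.dim = fl.length := by rw [← pb.finrank, h.deg]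
  simp only [basOK, List.all_eq_true, List.mem_range, Bool.and_eq_true, decide_eq_true_eq] at hb
  let B := fun i : ℕ => bs.getD i ([], 0, [])
  have hb' : ∀ i : Fin pb.dim, _ := fun i => hb i (hn ▸ i.2)
  choose b hb1 using fun i => exists_int h.root (hb' i).1.1
  have hd : ∀ i : Fin pb.dim, (B i).2.1 ≠ 0 := fun i => by
    have := (hb' i).1.1
    simp only [intOK, Bool.and_eq_true, decide_eq_true_eq] at this
    exact this.1
  let P : Matrix (Fin pb.dim) (Fin pb.dim) ℚ := fun i j => ((B i).1.getD j 0 : ℤ) / (B i).2.1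
  have h3 : (fun i => (b i : F)) = (P.map (algebraMap ℚ F)).mulVec pb.basis := by
    funext i
    have h4 := congrArg (algebraMap (𝓞 F) F) (hb1 i).1
    rw [map_mul, map_intCast, map_ev, ev_eq_sum _ pb.dim _ ((hb' i).1.2.trans i.2)] at h4
    have h5 : ((B i).2.1 : F) ≠ 0 := by exact_mod_cast hd i
    refine mul_left_cancel₀ h5 (h4.trans ?_)
    simp only [Matrix.mulVec, dotProduct, P, Matrix.map_apply, pb.coe_basis, h1, Finset.mul_sum,
      map_div₀, map_intCast]
    refine Finset.sum_congr rfl fun j _ => ?_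
    field_simp
    exact mul_comm _ _
  have h4 : P.det = ∏ i : Fin pb.dim, ((B i).2.1 : ℚ)⁻¹ := by
    rw [Matrix.det_of_isLowerTriangular P fun i j hij => ?_]
    · exact Finset.prod_congr rfl fun i _ => by simp only [P, B, (hb' i).2]; simp
    · have h5 : (B i).1.length ≤ j := (hb' i).1.2.trans (show i < j from hij)
      simp only [P, List.getD_eq_default _ _ h5]
      simp
  have h5 : ((idx fl.length bs : ℕ) : ℚ) ^ 2 * P.det ^ 2 = 1 := by
    rw [h4, ← hn, idx, Nat.cast_prod, ← Finset.prod_pow, ← Finset.prod_pow,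
      ← Finset.prod_mul_distrib]
    refine Finset.prod_eq_one fun i _ => ?_
    have : ((B i).2.1 : ℚ) ≠ 0 := by exact_mod_cast hd i
    rw [Nat.cast_natAbs, Int.cast_abs, sq_abs, ← mul_pow]
    exact (congrArg (· ^ 2) (mul_inv_cancel₀ this)).trans (one_pow 2)
  have h6 : |Algebra.discr ℚ pb.basis| = nm (ev α (dL (fl ++ [1]))) := by
    rw [h2, abs_mul, abs_pow, abs_neg, abs_one, one_pow, one_mul, nm, Nat.cast_natAbs, Int.cast_abs]
  have h7 := A.discr_le (by rw [Fintype.card_fin, pb.finrank]) b (by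
    rw [h3, Algebra.discr_of_matrix_mulVec]
    refine mul_ne_zero (right_ne_zero_of_mul_eq_one h5) fun h8 => h0 ?_
    rw [h8, abs_zero] at h6
    exact_mod_cast h6.symm)
  rw [h3, Algebra.discr_of_matrix_mulVec, abs_mul, h6, abs_sq] at h7
  have h8 := mul_le_mul_of_nonneg_left h7 (sq_nonneg ((idx fl.length bs : ℕ) : ℚ))
  rw [← mul_assoc, h5, one_mul, ← Int.cast_abs, ← Nat.cast_natAbs, mul_comm] at h8
  exact_mod_cast h8

open scoped nonZeroDivisors in
theorem mink {n t D M : ℕ} (hn : finrank ℚ F = n) (ht : InfinitePlace.nrComplexPlaces F ≤ t)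
    (hD : (discr F).natAbs ≤ D)
    (hM : (8000 ^ t * n.factorial) ^ 2 * D < ((M + 1) * (6283 ^ t * n ^ n)) ^ 2) (C) :
    ∃ I : (Ideal (𝓞 F))⁰, ClassGroup.mk0 I = C ∧ absNorm (I : Ideal (𝓞 F)) ≤ M := by
  obtain ⟨I, h1, h2⟩ := exists_ideal_in_class_of_norm_le C
  refine ⟨I, h1, Nat.le_of_lt_succ ?_⟩
  have hn0 : 0 < n := hn ▸ finrank_pos
  have h3 : (4 / Real.pi) ^ InfinitePlace.nrComplexPlaces F ≤ (8000 / 6283 : ℝ) ^ t := by
    refine (pow_le_pow_left₀ (by positivity) ?_ _).trans (pow_le_pow_right₀ (by norm_num) ht)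
    rw [div_le_div_iff₀ Real.pi_pos (by norm_num)]
    linarith [Real.pi_gt_d4]
  have h4 : √|(discr F : ℝ)| ≤ √D := by
    refine Real.sqrt_le_sqrt ?_
    rw [← Int.cast_abs, ← Nat.cast_natAbs]
    exact_mod_cast hD
  have h5 : (8000 ^ t * n.factorial : ℝ) * √D < (M + 1) * (6283 ^ t * n ^ n) := by
    refine lt_of_pow_lt_pow_left₀ 2 (by positivity) ?_
    rw [mul_pow, Real.sq_sqrt (Nat.cast_nonneg _)]
    exact_mod_cast hM
  have h6 : (absNorm (I : Ideal (𝓞 F)) : ℝ) < M + 1 := by
    rw [hn] at h2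
    calc _ ≤ _ := h2
      _ ≤ (8000 / 6283 : ℝ) ^ t * (n.factorial / n ^ n * √D) := by gcongr
      _ = (8000 ^ t * n.factorial : ℝ) * √D / (6283 ^ t * n ^ n) := by rw [div_pow]; field_simp
      _ < _ := by rwa [div_lt_iff₀ (by positivity)]
  exact_mod_cast h6

/-- Homogeneous Horner evaluation. -/
def hev {R : Type*} [CommRing R] (z K : R) : List ℤ → R
  | [] => 0
  | c :: cs => c * K ^ cs.length + z * hev z K cs

theorem hev_eq {R S : Type*} [CommRing R] [CommRing S] (φ : R →+* S) {z K : R} {w : S}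
    (h : φ K * w = φ z) (l : List ℤ) : φ K * φ (hev z K l) = φ K ^ l.length * ev w l := by
  induction l with
  | nil => simp [hev]
  | cons c l ih =>
    simp only [hev, map_add, map_mul, map_pow, map_intCast, ev_cons, List.length_cons]
    linear_combination φ z * ih - φ K ^ l.length * ev w l * h

/-- Separated approximations `z / K` of non-real roots, with error at most `E / K`. -/
def plcOK (fl : List ℤ) (K E : ℕ) (zs : List GaussianInt) : Bool :=
  decide (0 < K) && (zs.all fun z => decide ((hev z K (fl ++ [1])).norm < ((E ^ fl.length : ℕ) : ℤ) ^ 2) &&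
    decide (E ≤ z.im.natAbs)) &&
      decide (zs.Pairwise fun z w => ((2 * E : ℕ) : ℤ) ^ 2 ≤ (z - w).norm)

theorem Gen.places (h : Gen α fl) {K E : ℕ} {zs : List GaussianInt}
    (hc : plcOK fl K E zs = true) :
    2 * Fintype.card (InfinitePlace F) + zs.length ≤ 2 * fl.length := by
  classical
  simp only [plcOK, Bool.and_eq_true, decide_eq_true_eq, List.all_eq_true] at hc
  obtain ⟨⟨hK, h1⟩, h2⟩ := hc
  have hK' : (K : ℂ) ≠ 0 := by exact_mod_cast hK.ne'
  have nrm : ∀ (z : GaussianInt) (c : ℕ), z.norm < (c : ℤ) ^ 2 ↔ ‖(z : ℂ)‖ < c := fun z c => by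
    rw [← sq_lt_sq₀ (norm_nonneg _) (Nat.cast_nonneg _), ← Complex.normSq_eq_norm_sq,
      ← GaussianInt.intCast_real_norm]
    exact_mod_cast Iff.rfl
  have key : ∀ z ∈ zs, ∃ σ : F →ₐ[ℚ] ℂ, ‖(z : ℂ) - K * σ α‖ < E := fun z hz => by
    by_contra! hc
    have h3 := hev_eq GaussianInt.toComplex (z := z) (K := K) (w := z / K)
      (by rw [map_natCast, mul_div_cancel₀ _ hK']) (fl ++ [1])
    have h4 := congrArg (eval ((z : ℂ) / K)) h.prod_emb
    rw [map_mp, eval_add, eval_pow, eval_X, eval_ev, eval_prod, ← ev_append_one] at h4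
    have h5 : ((hev z K (fl ++ [1]) : GaussianInt) : ℂ) = ∏ σ : F →ₐ[ℚ] ℂ, ((z : ℂ) - K * σ α) := by
      rw [← h4, map_natCast, List.length_append, List.length_singleton, pow_succ', mul_assoc,
        ← h.deg, ← AlgHom.card ℚ F ℂ, ← Finset.card_univ, ← Finset.prod_const,
        ← Finset.prod_mul_distrib] at h3
      refine (mul_left_cancel₀ hK' h3).trans (Finset.prod_congr rfl fun σ _ => ?_)
      rw [eval_sub, eval_X, eval_C, mul_sub, mul_div_cancel₀ _ hK']
    have h6 := (nrm _ (E ^ fl.length)).1 (by exact_mod_cast (h1 z hz).1)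
    rw [h5, norm_prod] at h6
    have h7 : ∏ _σ : F →ₐ[ℚ] ℂ, (E : ℝ) ≤ _ :=
      Finset.prod_le_prod (fun _ _ => Nat.cast_nonneg _) fun σ _ => hc σ
    rw [Finset.prod_const, Finset.card_univ, AlgHom.card, h.deg] at h7
    exact absurd (h7.trans_lt h6) (by simp)
  choose σ hσ using fun i : Fin zs.length => key zs[i.1] (List.getElem_mem _)
  let f : Fin zs.length → {φ : F →+* ℂ // ¬ ComplexEmbedding.IsReal φ} := fun i =>
    ⟨(σ i).toRingHom, fun hr => by
      have h3 : ((σ i) α).im = 0 := by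
        have := hr.coe_embedding_apply (α : F)
        rw [show (σ i) α = _ from this.symm, Complex.ofReal_im]
      have h4 := (Complex.abs_im_le_norm _).trans_lt (hσ i)
      have h5 := (h1 _ (List.getElem_mem i.2)).2
      rw [Complex.sub_im, Complex.mul_im, h3, Complex.natCast_im, GaussianInt.toComplex_def'] at h4
      have h6 : ((zs[i.1].im.natAbs : ℕ) : ℝ) < E := by
        rw [Nat.cast_natAbs, Int.cast_abs]
        simpa using h4
      have : zs[i.1].im.natAbs < E := by exact_mod_cast h6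
      omega⟩
  have hf : Function.Injective f := by
    have key : ∀ i j : Fin zs.length, i < j → f i ≠ f j := fun i j hij h3 => by
      have h4 : σ i α = σ j α := DFunLike.congr_fun (congrArg Subtype.val h3) (α : F)
      have h5 := List.pairwise_iff_getElem.1 h2 i j i.2 j.2 hij
      refine absurd ((nrm _ (2 * E)).2 ?_) (not_lt.2 (by exact_mod_cast h5))
      have h6 := norm_sub_le ((zs[i.1] : ℂ) - K * σ i α) ((zs[j.1] : ℂ) - K * σ j α)
      rw [h4, sub_sub_sub_cancel_right] at h6
      have h7 := hσ i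
      rw [h4] at h7
      rw [map_sub]
      push_cast
      linarith [hσ j]
    intro i j h3
    rcases lt_trichotomy i j with h4 | h4 | h4
    · exact absurd h3 (key _ _ h4)
    · exact h4
    · exact absurd h3.symm (key _ _ h4)
  have h3 := Fintype.card_le_of_injective f hf
  rw [Fintype.card_fin, InfinitePlace.card_complex_embeddings] at h3
  have h4 := InfinitePlace.card_add_two_mul_card_eq_rank F
  rw [InfinitePlace.card_eq_nrRealPlaces_add_nrComplexPlaces, ← h.deg]
  omega

end Pool.Agent.Lib.MP_ab8df0_nt.A
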