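import Pool.Agent.Lib.MP_ab8df0_nt.A.Cl

/-! Integer coefficient lists evaluated at a generator of a number field; norms by resultants. -/

namespace Pool.Agent.Lib.MP_ab8df0_nt.A

open NumberField Polynomial Module

/-- Horner evaluation, constant term first. -/
def ev {R : Type*} [CommRing R] (a : R) : List ℤ → R
  | [] => 0
  | c :: l => (c : R) + a * ev a l

section Ring

variable {R S : Type*} [CommRing R] [CommRing S]

@[simp] theorem ev_nil (a : R) : ev a [] = 0 := rfl

@[simp] theorem ev_cons (a : R) (c : ℤ) (l : List ℤ) : ev a (c :: l) = c + a * ev a l := rfl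

theorem map_ev (φ : R →+* S) (a : R) (l : List ℤ) : φ (ev a l) = ev (φ a) l := by
  induction l with
  | nil => simp
  | cons c l ih => simp [ih]

/-- Sum of coefficient lists. -/
def addL : List ℤ → List ℤ → List ℤ
  | [], m => m
  | c :: l, [] => c :: l
  | c :: l, d :: m => (c + d) :: addL l m

theorem ev_addL (a : R) : ∀ l m : List ℤ, ev a (addL l m) = ev a l + ev a m
  | [], m => by simp [addL]
  | c :: l, [] => by simp [addL]
  | c :: l, d :: m => by simp only [addL, ev_cons, ev_addL a l m]; push_cast; ring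

/-- Scalar multiple of a coefficient list. -/
def smL (c : ℤ) (l : List ℤ) : List ℤ := l.map (c * ·)

theorem ev_smL (a : R) (c : ℤ) (l : List ℤ) : ev a (smL c l) = c * ev a l := by
  induction l with
  | nil => simp [smL]
  | cons d l ih =>
    rw [smL, List.map_cons, ev_cons, ← smL, ih, ev_cons]; push_cast; ring

/-- Product of coefficient lists. -/
def mulL : List ℤ → List ℤ → List ℤ
  | [], _ => []
  | c :: l, m => addL (smL c m) (0 :: mulL l m)

theorem ev_mulL (a : R) : ∀ l m : List ℤ, ev a (mulL l m) = ev a l * ev a m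
  | [], m => by simp [mulL]
  | c :: l, m => by
    simp only [mulL, ev_addL, ev_smL, ev_cons, ev_mulL a l m]; push_cast; ring

theorem ev_take_drop (a : R) : ∀ (n : ℕ) (l : List ℤ),
    ev a (l.take n) + a ^ n * ev a (l.drop n) = ev a l
  | 0, l => by simp
  | n + 1, [] => by simp
  | n + 1, c :: l => by
    rw [List.take_succ_cons, List.drop_succ_cons, ev_cons, ev_cons, ← ev_take_drop a n l]; ring

/-- Multiplication by the generator, reduced modulo the monic polynomial. -/
def mulX (fl r : List ℤ) : List ℤ :=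
  addL ((0 :: r).take fl.length) (mulL (smL (-1) ((0 :: r).drop fl.length)) fl)

theorem ev_mulX {a : R} {fl : List ℤ} (h : a ^ fl.length + ev a fl = 0) (r : List ℤ) :
    ev a (mulX fl r) = a * ev a r := by
  have := ev_take_drop a fl.length (0 :: r)
  rw [mulX, ev_addL, ev_mulL, ev_smL]
  simp only [ev_cons] at this
  push_cast at this ⊢
  linear_combination this - ev a ((0 :: r).drop fl.length) * h

/-- Product reduced modulo the monic polynomial. -/
def mulM (fl : List ℤ) : List ℤ → List ℤ → List ℤ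
  | [], _ => []
  | c :: l, m => addL (smL c m) (mulX fl (mulM fl l m))

theorem ev_mulM {a : R} {fl : List ℤ} (h : a ^ fl.length + ev a fl = 0) :
    ∀ l m : List ℤ, ev a (mulM fl l m) = ev a l * ev a m
  | [], m => by simp [mulM]
  | c :: l, m => by
    simp only [mulM, ev_addL, ev_smL, ev_cons, ev_mulX h, ev_mulM h l m]; ring

/-- All coefficients are divisible by the modulus. -/
def dvdL (n : ℤ) (l : List ℤ) : Bool := l.all fun c => c % n == 0

theorem ev_dvdL (a : R) {n : ℤ} (hn : (n : R) = 0) {l : List ℤ} (h : dvdL n l = true) :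
    ev a l = 0 := by
  induction l with
  | nil => rfl
  | cons c l ih =>
    rw [dvdL, List.all_cons, Bool.and_eq_true, beq_iff_eq] at h
    obtain ⟨d, rfl⟩ := Int.dvd_of_emod_eq_zero h.1
    rw [ev_cons, ih h.2]; push_cast; rw [hn]; ring

/-- Equality of coefficient lists modulo `n` (exact equality for `n = 0`). -/
def eqL (n : ℤ) (l m : List ℤ) : Bool := dvdL n (addL l (smL (-1) m))

theorem ev_eqL (a : R) {n : ℤ} (hn : (n : R) = 0) {l m : List ℤ} (h : eqL n l m = true) :
    ev a l = ev a m := by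
  have := ev_dvdL a hn h
  rw [ev_addL, ev_smL] at this
  push_cast at this
  linear_combination this

theorem ev_append_one (a : R) (l : List ℤ) : ev a (l ++ [1]) = a ^ l.length + ev a l := by
  induction l with
  | nil => simp
  | cons c l ih => rw [List.cons_append, ev_cons, ih, ev_cons, List.length_cons]; ring

end Ring

/-- The polynomial with the given coefficients. -/
noncomputable def pl (l : List ℤ) : ℤ[X] := ev X l

/-- The monic polynomial with the given lower coefficients. -/
noncomputable def mp (fl : List ℤ) : ℤ[X] := X ^ fl.length + pl fl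

theorem degree_pl (l : List ℤ) : (pl l).degree < l.length := by
  induction l with
  | nil => simp [pl]
  | cons c l ih =>
    rw [pl, ev_cons, ← pl, List.length_cons]
    refine (degree_add_le _ _).trans_lt (max_lt ?_ ?_)
    · exact (degree_intCast_le c).trans_lt (by exact_mod_cast Nat.succ_pos _)
    · by_cases h : pl l = 0
      · simp [h]
      · rw [mul_comm, degree_mul_X, degree_eq_natDegree h] at *
        exact_mod_cast Nat.succ_lt_succ (by exact_mod_cast ih)

theorem natDegree_pl (l : List ℤ) : (pl l).natDegree ≤ l.length :=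
  natDegree_le_of_degree_le (degree_pl l).le

theorem monic_mp (fl : List ℤ) : (mp fl).Monic := monic_X_pow_add (degree_pl fl)

theorem natDegree_mp (fl : List ℤ) : (mp fl).natDegree = fl.length := by
  rw [mp, natDegree_add_eq_left_of_degree_lt (by rw [degree_X_pow]; exact degree_pl fl),
    natDegree_X_pow]

section Ring

variable {R : Type*} [CommRing R]

theorem map_pl (l : List ℤ) : (pl l).map (Int.castRingHom R) = ev X l := by
  have := map_ev (mapRingHom (Int.castRingHom R)) X l
  rwa [coe_mapRingHom, map_X] at this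

theorem eval_ev (a : R) (l : List ℤ) : eval a (ev X l) = ev a l := by
  have := map_ev (evalRingHom a) X l
  rwa [coe_evalRingHom, eval_X] at this

theorem map_mp (fl : List ℤ) :
    (mp fl).map (Int.castRingHom R) = X ^ fl.length + ev X fl := by
  rw [mp, Polynomial.map_add, Polynomial.map_pow, map_X, map_pl]

theorem aeval_pl (a : R) (l : List ℤ) : aeval a (pl l) = ev a l := by
  have := map_ev (aeval a : ℤ[X] →ₐ[ℤ] R).toRingHom X l
  simpa [pl] using this

theorem aeval_mp (a : R) (fl : List ℤ) : aeval a (mp fl) = a ^ fl.length + ev a fl := by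
  rw [mp, map_add, map_pow, aeval_X, aeval_pl]

theorem res_prod [Nontrivial R] {ι : Type*} (s : Finset ι) (ρ : ι → R) (fl : List ℤ)
    (h : ∏ i ∈ s, (X - C (ρ i)) = (mp fl).map (Int.castRingHom R)) (g : List ℤ) :
    ((resultant (mp fl) (pl g) fl.length g.length : ℤ) : R) = ∏ i ∈ s, ev (ρ i) g := by
  have hg : ((pl g).map (Int.castRingHom R)).natDegree ≤ g.length :=
    natDegree_map_le.trans (natDegree_pl g)
  have h1 := resultant_prod_left s (fun i => X - C (ρ i)) _ _ (by simp) hg
  rw [h, (monic_mp fl).natDegree_map, natDegree_mp, resultant_map_map] at h1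
  refine h1.trans (Finset.prod_congr rfl fun i _ => ?_)
  rw [natDegree_X_sub_C, resultant_X_sub_C_left _ _ _ hg, map_pl, eval_ev]

end Ring

variable {F : Type*} [Field F] [NumberField F]

/-- `α` generates the field and has the given minimal polynomial. -/
structure Gen (α : 𝓞 F) (fl : List ℤ) : Prop where
  deg : finrank ℚ F = fl.length
  mpe : minpoly ℚ (α : F) = (mp fl).map (Int.castRingHom ℚ)

variable {α : 𝓞 F} {fl : List ℤ}

omit [NumberField F] in
theorem coe_ev (α : 𝓞 F) (l : List ℤ) : ((ev α l : 𝓞 F) : F) = ev (α : F) l :=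
  map_ev (algebraMap (𝓞 F) F) α l

theorem Gen.rootF (h : Gen α fl) : (α : F) ^ fl.length + ev (α : F) fl = 0 := by
  have := minpoly.aeval ℚ (α : F)
  rw [h.mpe, ← algebraMap_int_eq, aeval_map_algebraMap, aeval_mp] at this
  exact this

theorem Gen.root (h : Gen α fl) : α ^ fl.length + ev α fl = 0 :=
  RingOfIntegers.ext (by simpa [← coe_ev] using h.rootF)

theorem Gen.top (h : Gen α fl) : IntermediateField.adjoin ℚ {(α : F)} = ⊤ := by
  rw [Field.primitive_element_iff_minpoly_natDegree_eq, h.mpe, (monic_mp fl).natDegree_map,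
    natDegree_mp, h.deg]

theorem Gen.emb_root (h : Gen α fl) (σ : F →ₐ[ℚ] ℂ) :
    σ α ^ fl.length + ev (σ α) fl = 0 := by
  have := congrArg σ h.rootF
  rwa [map_add, map_pow, map_zero, show σ (ev (α : F) fl) = _ from map_ev σ.toRingHom _ _] at this

theorem Gen.prod_emb (h : Gen α fl) :
    ∏ σ : F →ₐ[ℚ] ℂ, (X - C (σ α)) = (mp fl).map (Int.castRingHom ℂ) := by
  have hinj : Function.Injective fun σ : F →ₐ[ℚ] ℂ => σ α :=
    (Field.primitive_element_iff_algHom_eq_of_eval' ℚ ℂ (fun _ => IsAlgClosed.splits _) _).1 h.top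
  refine (eq_of_monic_of_dvd_of_natDegree_le (monic_prod_of_monic _ _ fun _ _ => monic_X_sub_C _)
    ((monic_mp fl).map _) (Finset.prod_dvd_of_coprime
      ((pairwise_coprime_X_sub_C hinj).set_pairwise _) fun σ _ => ?_) ?_).symm
  · rw [dvd_iff_isRoot, IsRoot, map_mp, eval_add, eval_pow, eval_X, eval_ev, h.emb_root]
  · rw [natDegree_finsetProd_X_sub_C_eq_card, (monic_mp fl).natDegree_map, natDegree_mp,
      Finset.card_univ, AlgHom.card, h.deg]

theorem norm_emb (x : 𝓞 F) : ((Algebra.norm ℤ x : ℤ) : ℂ) = ∏ σ : F →ₐ[ℚ] ℂ, σ x := by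
  rw [← Algebra.norm_eq_prod_embeddings, ← Algebra.coe_norm_int]
  simp

theorem Gen.norm_res (h : Gen α fl) (g : List ℤ) :
    Algebra.norm ℤ (ev α g) = resultant (mp fl) (pl g) fl.length g.length := by
  refine Int.cast_injective (α := ℂ) ?_
  rw [res_prod _ _ _ h.prod_emb, norm_emb]
  exact Finset.prod_congr rfl fun σ _ => by
    rw [coe_ev]; exact map_ev σ.toRingHom _ _

/-- Horner evaluation of the absolute values. -/
def evA (r : ℕ) : List ℤ → ℕ
  | [] => 0
  | c :: l => c.natAbs + r * evA r l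

theorem norm_ev_le {z : ℂ} {r : ℕ} (h : ‖z‖ ≤ r) (l : List ℤ) : ‖ev z l‖ ≤ evA r l := by
  induction l with
  | nil => simp [evA]
  | cons c l ih =>
    rw [ev_cons, evA]
    refine (norm_add_le _ _).trans ?_
    rw [norm_mul, Complex.norm_intCast]
    push_cast
    rw [Nat.cast_natAbs, Int.cast_abs]
    gcongr

theorem norm_ev_le' {z : ℂ} {r : ℕ} (h : (r : ℝ) ≤ ‖z‖) (l : List ℤ) :
    ‖ev z l‖ * r ^ l.length ≤ evA r l * ‖z‖ ^ l.length := by
  induction l with
  | nil => simp [evA]
  | cons c l ih =>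
    rw [ev_cons, evA, List.length_cons]
    have h1 := norm_add_le (c : ℂ) (z * ev z l)
    rw [norm_mul, Complex.norm_intCast] at h1
    push_cast
    rw [Nat.cast_natAbs, Int.cast_abs]
    have h2 : (r : ℝ) ^ (l.length + 1) ≤ ‖z‖ ^ (l.length + 1) := by gcongr
    have h3 : (0 : ℝ) ≤ r := Nat.cast_nonneg r
    calc _ ≤ (|(c : ℝ)| + ‖z‖ * ‖ev z l‖) * r ^ (l.length + 1) := by gcongr
      _ = |(c : ℝ)| * r ^ (l.length + 1) + ‖z‖ * r * (‖ev z l‖ * r ^ l.length) := by ring
      _ ≤ |(c : ℝ)| * ‖z‖ ^ (l.length + 1) + ‖z‖ * r * (evA r l * ‖z‖ ^ l.length) := by gcongr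
      _ = _ := by ring

theorem root_le {z : ℂ} {r : ℕ} (hz : z ^ fl.length + ev z fl = 0)
    (h : evA r fl < r ^ fl.length) : ‖z‖ ≤ r := by
  by_contra hc
  have hc := (not_le.1 hc)
  have h1 := norm_ev_le' hc.le fl
  rw [show ev z fl = -z ^ fl.length by linear_combination hz, norm_neg, norm_pow] at h1
  have h2 : 0 < ‖z‖ ^ fl.length := pow_pos ((Nat.cast_nonneg r).trans_lt hc) _
  have h3 : (evA r fl : ℝ) < r ^ fl.length := by exact_mod_cast h
  nlinarith

theorem Gen.nm_le (h : Gen α fl) {r : ℕ} (hr : evA r fl < r ^ fl.length) (g : List ℤ) :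
    nm (ev α g) ≤ evA r g ^ fl.length := by
  have h1 := congrArg norm (norm_emb (ev α g))
  rw [Complex.norm_intCast, norm_prod] at h1
  have h2 : ∏ σ : F →ₐ[ℚ] ℂ, ‖σ (ev α g : 𝓞 F)‖ ≤ ∏ _σ : F →ₐ[ℚ] ℂ, (evA r g : ℝ) :=
    Finset.prod_le_prod (fun _ _ => norm_nonneg _) fun σ _ => by
      rw [coe_ev, show σ (ev (α : F) g) = _ from map_ev σ.toRingHom _ _]
      exact norm_ev_le (root_le (h.emb_root σ) hr) g
  rw [Finset.prod_const, Finset.card_univ, AlgHom.card, h.deg, ← h1, ← Int.cast_abs,
    ← Nat.cast_natAbs] at h2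
  exact_mod_cast h2

/-- The product of the linear factors. -/
def prodLin : List ℕ → List ℤ
  | [] => [1]
  | ρ :: l => mulL [-(ρ : ℤ), 1] (prodLin l)

theorem ev_prodLin {R : Type*} [CommRing R] (a : R) (l : List ℕ) :
    ev a (prodLin l) = (l.map fun ρ : ℕ => a - ρ).prod := by
  induction l with
  | nil => simp [prodLin]
  | cons c l ih => rw [prodLin, ev_mulL, ih]; simp [sub_eq_neg_add]

/-- The polynomial splits modulo `m` with the given roots and all roots have size at most `r`. -/
def splitOK (fl : List ℤ) (m r : ℕ) (ρ : List ℕ) : Bool :=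
  eqL m (prodLin ρ) (fl ++ [1]) && decide (1 < m) && decide (evA r fl < r ^ fl.length)

theorem Gen.norm_mod (h : Gen α fl) {m r : ℕ} {ρ : List ℕ} (hs : splitOK fl m r ρ = true)
    (g : List ℤ) : ((Algebra.norm ℤ (ev α g) : ℤ) : ZMod m) =
      (ρ.map fun x : ℕ => ev (x : ZMod m) g).prod := by
  simp only [splitOK, Bool.and_eq_true, decide_eq_true_eq] at hs
  have : Fact (1 < m) := ⟨hs.1.2⟩
  have h1 := ev_eqL (X : (ZMod m)[X]) (by
    rw [Int.cast_natCast, ← C_eq_natCast, ZMod.natCast_self, C_0]) hs.1.1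
  rw [ev_prodLin, ev_append_one, ← map_mp] at h1
  rw [h.norm_res, res_prod Finset.univ (fun i : Fin ρ.length => (ρ[i.1] : ZMod m)) fl
    (by rw [← h1, ← Fin.prod_univ_fun_getElem]; simp), ← Fin.prod_univ_fun_getElem]

theorem natAbs_of_mod {m v : ℕ} {x : ℤ} (h : (x : ZMod m) = v) (hv : v < m)
    (hx : 2 * x.natAbs < m) : x.natAbs = min v (m - v) := by
  obtain ⟨k, hk⟩ := (ZMod.intCast_eq_intCast_iff_dvd_sub x v m).1 (by simpa using h)
  have h1 : k = 0 ∨ k = 1 := by
    by_contra hc
    rcases (by omega : k ≤ -1 ∨ 2 ≤ k) with h2 | h2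
    · have : (m : ℤ) * k ≤ m * (-1) := by gcongr
      omega
    · have : (m : ℤ) * 2 ≤ m * k := by gcongr
      omega
  rcases h1 with rfl | rfl <;> omega

theorem Gen.nm_eq (h : Gen α fl) {m r : ℕ} {ρ : List ℕ} (hs : splitOK fl m r ρ = true)
    (g : List ℤ) {v : ℕ} (hv : (v : ZMod m) = (ρ.map fun x : ℕ => ev (x : ZMod m) g).prod)
    (hlt : v < m) (hb : 2 * evA r g ^ fl.length < m) : nm (ev α g) = min v (m - v) := by
  have h1 := h.nm_le (r := r) (by
    simp only [splitOK, Bool.and_eq_true, decide_eq_true_eq] at hs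
    exact hs.2) g
  exact natAbs_of_mod ((h.norm_mod hs g).trans hv.symm) hlt (by rw [nm] at h1; omega)

/-- The norm computed from the roots modulo `m` (zero if the modulus is too small). -/
def nmC (n m r : ℕ) (ρ : List ℕ) (g : List ℤ) : ℕ :=
  if 2 * evA r g ^ n < m then
    (fun v => min v (m - v)) (((ρ.map fun x : ℕ => ev (x : ℤ) g % m).prod % m).toNat) else 0

theorem Gen.nmC_eq (h : Gen α fl) {m r : ℕ} {ρ : List ℕ} (hs : splitOK fl m r ρ = true)
    (g : List ℤ) (h0 : nmC fl.length m r ρ g ≠ 0) : nm (ev α g) = nmC fl.length m r ρ g := by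
  rw [nmC] at h0 ⊢
  split_ifs at h0 ⊢ with hb
  · have hm : (0 : ℤ) < m := by omega
    have h1 := Int.emod_nonneg (ρ.map fun x : ℕ => ev (x : ℤ) g % m).prod hm.ne'
    have h2 := Int.emod_lt_of_pos (ρ.map fun x : ℕ => ev (x : ℤ) g % m).prod hm
    refine h.nm_eq hs g ?_ (by omega) hb
    rw [← Int.cast_natCast, Int.toNat_of_nonneg h1, ZMod.intCast_mod, Int.cast_list_prod,
      List.map_map]
    congr 1
    refine List.map_congr_left fun x _ => ?_
    rw [Function.comp_apply, ZMod.intCast_mod]
    simpa using map_ev (Int.castRingHom (ZMod m)) x g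
  · exact absurd rfl h0

end Pool.Agent.Lib.MP_ab8df0_nt.A
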