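import Pool.Agent.Lib.MP_ab8df0_nt.A.Fld

/-! Spanning, real places, primes from a norm, irreducibility from residue degrees. -/

namespace Pool.Agent.Lib.MP_ab8df0_nt.A

open NumberField Pool.Agent.Stark Ideal Polynomial Module IsDedekindDomain

variable {F : Type*} [Field F] [NumberField F] {α : 𝓞 F} {fl : List ℤ}

theorem Gen.span (h : Gen α fl) (x : F) :
    ∃ (l : List ℤ) (d : ℕ), l.length = fl.length ∧ d ≠ 0 ∧ x = ev (α : F) l / d := by
  obtain ⟨pb, h1, -⟩ := h.exists_pb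
  have hn : pb.dim = fl.length := by rw [← pb.finrank, h.deg]
  let c := fun i => pb.basis.repr x i
  have hd : (∏ i, (c i).den) ≠ 0 := Finset.prod_ne_zero_iff.2 fun i _ => (c i).den_nz
  have h2 : ∀ i, ∃ z : ℤ, (z : ℚ) = c i * (∏ i, (c i).den : ℕ) := fun i => by
    obtain ⟨k, hk⟩ := Finset.dvd_prod_of_mem (fun i => (c i).den) (Finset.mem_univ i)
    exact ⟨(c i).num * k, by rw [hk]; push_cast; rw [← mul_assoc, Rat.mul_den_eq_num]⟩
  choose z hz using h2
  refine ⟨List.ofFn z, _, by rw [List.length_ofFn, hn], hd, ?_⟩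
  rw [eq_div_iff (by exact_mod_cast hd), ev_eq_sum _ pb.dim _ (by simp)]
  conv_lhs => rw [← pb.basis.sum_repr x, Finset.sum_mul]
  refine Finset.sum_congr rfl fun i _ => ?_
  have h3 := congrArg (algebraMap ℚ F) (hz i)
  rw [map_intCast, map_mul, map_natCast] at h3
  rw [List.getD_eq_getElem _ _ (by simp), List.getElem_ofFn, h3, pb.coe_basis, h1, Algebra.smul_def]
  ring

theorem Gen.hom (h : Gen α fl) {R : Type*} [Field R] [CharZero R] {r : R}
    (hr : r ^ fl.length + ev r fl = 0) : ∃ φ : F →+* R, φ α = r := by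
  obtain ⟨pb, h1, -⟩ := h.exists_pb
  have h2 : aeval r (minpoly ℚ pb.gen) = 0 := by rw [h1, h.mpe, ← mq, aeval_mq, hr]
  exact ⟨(pb.lift r h2).toRingHom, by rw [← h1]; exact pb.lift_gen r h2⟩

theorem continuous_ev (l : List ℤ) : Continuous fun x : ℝ => ev x l := by
  induction l with
  | nil => exact continuous_const
  | cons c l ih => exact continuous_const.add (continuous_id.mul ih)

/-- A sign change between `a / K` and `b / K`. -/
def realOK (fl : List ℤ) (K : ℕ) (a b : ℤ) : Bool :=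
  decide (0 < K) && decide (a < b) && decide (hev a K (fl ++ [1]) * hev b K (fl ++ [1]) < 0)

theorem Gen.real (h : Gen α fl) {K : ℕ} {a b : ℤ} (hc : realOK fl K a b = true) :
    ∃ φ : F →+* ℝ, (a : ℝ) / K < φ α ∧ φ α < (b : ℝ) / K := by
  simp only [realOK, Bool.and_eq_true, decide_eq_true_eq] at hc
  obtain ⟨⟨h1, h2⟩, h3⟩ := hc
  have hK : (0 : ℝ) < K := by exact_mod_cast h1
  have key : ∀ z : ℤ, ((hev z K (fl ++ [1]) : ℤ) : ℝ) = K ^ fl.length * ev ((z : ℝ) / K) (fl ++ [1]) :=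
    fun z => by
      have := hev_eq (Int.castRingHom ℝ) (z := z) (K := K) (w := z / K)
        (by simp [mul_div_cancel₀ _ hK.ne']) (fl ++ [1])
      rw [List.length_append, List.length_singleton, pow_succ', mul_assoc] at this
      simpa using mul_left_cancel₀ (by simpa using h1.ne') this
  have h4 : ev ((a : ℝ) / K) (fl ++ [1]) * ev ((b : ℝ) / K) (fl ++ [1]) < 0 := by
    have h5 : ((hev a K (fl ++ [1]) * hev b K (fl ++ [1]) : ℤ) : ℝ) < 0 := by exact_mod_cast h3
    rw [Int.cast_mul, key, key, mul_mul_mul_comm] at h5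
    exact neg_of_mul_neg_right h5 (by positivity)
  have h5 : (a : ℝ) / K ≤ b / K := by gcongr
  have h6 := (continuous_ev (fl ++ [1])).continuousOn (s := Set.Icc ((a : ℝ) / K) (b / K))
  obtain ⟨r, h7, h8⟩ : ∃ r ∈ Set.Ioo ((a : ℝ) / K) (b / K), ev r (fl ++ [1]) = 0 := by
    rcases mul_neg_iff.1 h4 with h7 | h7
    · exact intermediate_value_Ioo' h5 h6 ⟨h7.2, h7.1⟩
    · exact intermediate_value_Ioo h5 h6 h7
  obtain ⟨φ, h9⟩ := h.hom (by rwa [ev_append_one] at h8)
  exact ⟨φ, h9 ▸ h7⟩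

theorem exists_prime {p : ℕ} (hp : p.Prime) {x : 𝓞 F} (h : p ∣ nm x) :
    ∃ v : HeightOneSpectrum (𝓞 F), (p : 𝓞 F) ∈ v.asIdeal ∧ x ∈ v.asIdeal := by
  obtain ⟨P, h1, h2, h3⟩ := exists_isMaximal_dvd_of_dvd_absNorm' hp (span {x}) (absNorm_span x ▸ h)
  have h4 : (p : 𝓞 F) ∈ P := by
    have : (p : ℤ) ∈ P.under ℤ := h2 ▸ mem_span_singleton_self _
    simpa [mem_comap] using this
  exact ⟨⟨P, h1.isPrime, fun h0 => hp.ne_zero (by simpa [h0] using h4)⟩, h4,
    (span_singleton_le_iff_mem _).1 (dvd_iff_le.1 h3)⟩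

/-- `p` divides the norm of `l`. -/
def primeOK (fl : List ℤ) (m r : ℕ) (ρ : List ℕ) (p : ℕ) (l : List ℤ) : Bool :=
  splitOK fl m r ρ && decide (nmC fl.length m r ρ l ≠ 0) && decide (nmC fl.length m r ρ l % p = 0)

theorem Gen.exists_prime (h : Gen α fl) {m r : ℕ} {ρ : List ℕ} {p : ℕ} (hp : p.Prime) {l : List ℤ}
    (hc : primeOK fl m r ρ p l = true) :
    ∃ v : HeightOneSpectrum (𝓞 F), (p : 𝓞 F) ∈ v.asIdeal ∧ ev α l ∈ v.asIdeal := by
  simp only [primeOK, Bool.and_eq_true, decide_eq_true_eq] at hc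
  exact A.exists_prime hp (h.nmC_eq hc.1.1 l hc.1.2 ▸ Nat.dvd_of_mod_eq_zero hc.2)

theorem Gen.prime_of_factor (h : Gen α fl) {p : ℕ} (hp : p.Prime) {g q : List ℤ}
    (hc : (eqL p (mulL (g ++ [1]) q) (fl ++ [1]) && decide (0 < g.length)) = true) :
    ∃ v : HeightOneSpectrum (𝓞 F), (p : 𝓞 F) ∈ v.asIdeal ∧ ev α (g ++ [1]) ∈ v.asIdeal := by
  simp only [Bool.and_eq_true, decide_eq_true_eq] at hc
  have : Fact p.Prime := ⟨hp⟩
  let k := AlgebraicClosure (ZMod p)
  have h1 := (IsAlgClosed.splits ((mp fl).map (Int.castRingHom k))).eq_prod_roots_of_monic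
    ((monic_mp fl).map _)
  obtain ⟨x, h2⟩ := IsAlgClosed.exists_root ((mp g).map (Int.castRingHom k)) (by
    rw [(monic_mp g).degree_map, degree_eq_natDegree (monic_mp g).ne_zero, natDegree_mp]
    exact_mod_cast hc.2.ne')
  rw [IsRoot, map_mp, eval_add, eval_pow, eval_X, eval_ev, ← ev_append_one] at h2
  have h3 := ev_eqL x (by rw [Int.cast_natCast, CharP.cast_eq_zero]) hc.1
  rw [ev_mulL, h2, zero_mul, ev_append_one] at h3
  have h4 : x ∈ ((mp fl).map (Int.castRingHom k)).roots.toList := by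
    rw [Multiset.mem_toList, mem_roots ((monic_mp fl).map _).ne_zero, IsRoot, map_mp, eval_add,
      eval_pow, eval_X, eval_ev, h3]
  generalize hl : ((mp fl).map (Int.castRingHom k)).roots.toList = lr at h4
  rw [← Multiset.coe_toList (roots _), hl, Multiset.map_coe, Multiset.prod_coe,
    ← Fin.prod_univ_fun_getElem] at h1
  obtain ⟨i, hi, rfl⟩ := List.getElem_of_mem h4
  have h5 := res_prod Finset.univ (fun i : Fin lr.length => lr[i.1]) fl h1.symm (g ++ [1])
  rw [Finset.prod_eq_zero (Finset.mem_univ ⟨i, hi⟩) h2, ← h.norm_res,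
    CharP.intCast_eq_zero_iff k p] at h5
  exact A.exists_prime hp (Int.natCast_dvd.1 h5)

theorem ev_cast {R : Type*} [CommRing R] (a : R) (l : List ℕ) :
    ev a (l.map fun x : ℕ => (x : ℤ)) = evK a l := by
  induction l with
  | nil => rfl
  | cons c l ih => rw [List.map_cons, ev_cons, ih, evK, Int.cast_natCast]

/-- All factors modulo `p` have their roots in the field with `p ^ D` elements, in no smaller one. -/
noncomputable def degOK (fl : List ℤ) (p D : ℕ) (l : List Fac) : Bool :=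
  eqL p (prodF l) (fl ++ [1]) && l.all fun c => c.nr p && decide (c.D = D ∧ 0 < D) &&
    eqL p ((pwN p c.ng [0, 1] (p ^ D).log2.succ (p ^ D)).map fun x : ℕ => (x : ℤ)) [0, 1]

theorem dvd_deg (h : α ^ fl.length + ev α fl = 0) {p D : ℕ} (hp : p.Prime) {l : List Fac}
    (hc : degOK fl p D l = true) : D ∣ finrank ℚ F := by
  simp only [degOK, Bool.and_eq_true, List.all_eq_true, decide_eq_true_eq] at hc
  have key : ∀ q : Pr F, (p : 𝓞 F) ∈ q.asIdeal → ∃ k, absNorm q.asIdeal = p ^ (D * k) := by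
    intro q hq
    obtain ⟨n, -, hn⟩ := (Nat.dvd_prime_pow hp).1 (absNorm_span_natCast (S := 𝓞 F) p ▸
      absNorm_dvd_absNorm_of_le ((span_singleton_le_iff_mem _).2 hq))
    have hn0 : 0 < n := Nat.pos_of_ne_zero fun h0 =>
      q.isPrime.ne_top (absNorm_eq_one_iff.1 (by rw [hn, h0, pow_zero]))
    have : Finite (𝓞 F ⧸ q.asIdeal) := (absNorm_ne_zero_iff _).1 (hn ▸ pow_ne_zero _ hp.ne_zero)
    have := Fintype.ofFinite (𝓞 F ⧸ q.asIdeal)
    have := q.isMaximal
    let := Ideal.Quotient.field q.asIdeal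
    let π := Ideal.Quotient.mk q.asIdeal
    have h1 : ((p : ℕ) : 𝓞 F ⧸ q.asIdeal) = 0 := by
      rw [← map_natCast π]; exact Ideal.Quotient.eq_zero_iff_mem.2 hq
    have h2 := ev_eqL (π α) (by rw [Int.cast_natCast, h1]) hc.1
    rw [ev_append_one, ← map_ev π α fl, ← map_pow, ← map_add, h, map_zero] at h2
    obtain ⟨c, h3, h4⟩ := exists_fac _ l h2
    obtain ⟨⟨h5, rfl, h0⟩, h6⟩ := hc.2 c h3
    have h7 := ev_eqL (π α) (by rw [Int.cast_natCast, h1]) h6
    rw [ev_cast, pwN_ev h1 h4 (by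
      simp only [Fac.nr, Bool.and_eq_true, decide_eq_true_eq] at h5
      exact h5.1) _ _ _ Nat.lt_log2_self] at h7
    have h8 := FiniteField.pow_card (π α)
    rw [← Nat.card_eq_fintype_card, show Nat.card (𝓞 F ⧸ q.asIdeal) = p ^ n from hn] at h8
    have h9 : ∀ k, Function.IsPeriodicPt (fun x : 𝓞 F ⧸ q.asIdeal => x ^ p) k (π α) ↔
        π α ^ p ^ k = π α := fun k => by
      rw [Function.IsPeriodicPt, Function.IsFixedPt, pow_iterate]
    have h10 := (h9 _).1 (((h9 n).2 h8).gcd ((h9 c.D).2 (by simpa [evK] using h7)))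
    have h11 := Fac.le_of_nr hp.pos h1 h4 h5 (Nat.gcd_pos_of_pos_left _ hn0) h10
    obtain ⟨k, hk⟩ := Nat.gcd_dvd_left n c.D
    rw [le_antisymm (Nat.gcd_le_right _ h0) h11] at hk
    exact ⟨k, by rw [hn, hk]⟩
  have key2 : ∀ I : Ideal (𝓞 F), I ∣ span {(p : 𝓞 F)} → ∃ k, absNorm I = p ^ (D * k) := by
    intro I
    induction I using UniqueFactorizationMonoid.induction_on_prime with
    | h₁ => exact fun h0 => absurd (zero_dvd_iff.1 h0) (by simpa using hp.ne_zero)
    | h₂ I hI => exact fun _ => ⟨0, by rw [isUnit_iff.1 hI]; simp⟩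
    | h₃ I P hI hP ih =>
      intro h0
      obtain ⟨k, hk⟩ := ih ((dvd_mul_left _ _).trans h0)
      obtain ⟨j, hj⟩ := key ⟨P, isPrime_of_prime hP, hP.ne_zero⟩
        ((span_singleton_le_iff_mem _).1 (dvd_iff_le.1 ((dvd_mul_right _ _).trans h0)))
      exact ⟨j + k, by rw [map_mul, hk, hj, ← pow_add, mul_add]⟩
  obtain ⟨k, hk⟩ := key2 _ dvd_rfl
  rw [absNorm_span_natCast, RingOfIntegers.rank] at hk
  exact ⟨k, Nat.pow_right_injective hp.two_le hk⟩

theorem irr_of_deg {fl : List ℤ} {p p' D D' : ℕ} (hp : p.Prime) (hp' : p'.Prime) {l l' : List Fac}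
    (hc : (degOK fl p D l && degOK fl p' D' l' && decide (0 < fl.length) &&
      decide (fl.length ≤ D.lcm D')) = true) : Irreducible (mq fl) := by
  simp only [Bool.and_eq_true, decide_eq_true_eq] at hc
  obtain ⟨⟨⟨h1, h2⟩, h3⟩, h4⟩ := hc
  have hn : (mq fl).natDegree = fl.length := by rw [mq, (monic_mp fl).natDegree_map, natDegree_mp]
  obtain ⟨g, h5, h6, h7⟩ := exists_monic_irreducible_factor (mq fl)
    (not_isUnit_of_natDegree_pos _ (hn ▸ h3))
  have : Fact (Irreducible g) := ⟨h6⟩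
  have h8 : AdjoinRoot.root g ^ fl.length + ev (AdjoinRoot.root g) fl = 0 := by
    rw [← aeval_mq]
    exact (AdjoinRoot.aeval_eq (mq fl)).trans (AdjoinRoot.mk_eq_zero.2 h7)
  let a : 𝓞 (AdjoinRoot g) := ⟨AdjoinRoot.root g, mp fl, monic_mp fl, by
    rw [← aeval_def, aeval_mp, h8]⟩
  have h9 : a ^ fl.length + ev a fl = 0 := RingOfIntegers.ext (by simpa [coe_ev, a] using h8)
  have h10 := Nat.le_of_dvd finrank_pos (Nat.lcm_dvd (dvd_deg h9 hp h1) (dvd_deg h9 hp' h2))
  have h11 : finrank ℚ (AdjoinRoot g) = g.natDegree := (AdjoinRoot.powerBasis' h5).finrank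
  rw [eq_of_monic_of_dvd_of_natDegree_le h5 (monic_mq fl) h7 (by omega)]
  exact h6

end Pool.Agent.Lib.MP_ab8df0_nt.A
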