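import Pool.Agent.Lib.MP_ab8df0_nt.A.Top

/-! The field defined by an irreducible monic integer polynomial; Eisenstein's criterion. -/

namespace Pool.Agent.Lib.MP_ab8df0_nt.A

open NumberField Polynomial Module

/-- The monic polynomial over `ℚ`. -/
noncomputable def mq (fl : List ℤ) : ℚ[X] := (mp fl).map (Int.castRingHom ℚ)

theorem monic_mq (fl : List ℤ) : (mq fl).Monic := (monic_mp fl).map _

theorem aeval_mq {F : Type*} [Field F] [CharZero F] (a : F) (fl : List ℤ) :
    aeval a (mq fl) = a ^ fl.length + ev a fl := by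
  rw [mq, ← algebraMap_int_eq, aeval_map_algebraMap, aeval_mp]

theorem exists_gen {F : Type*} [Field F] [NumberField F] {fl : List ℤ} (hi : Irreducible (mq fl))
    (hd : finrank ℚ F = fl.length) {a : F} (h : a ^ fl.length + ev a fl = 0) :
    ∃ α : 𝓞 F, (α : F) = a ∧ Gen α fl :=
  ⟨⟨a, mp fl, monic_mp fl, by rw [← aeval_def, aeval_mp, h]⟩, rfl, hd,
    (minpoly.eq_of_irreducible_of_monic hi (by rw [aeval_mq]; exact h) (monic_mq fl)).symm⟩

/-- The field generated by a root. -/
abbrev Fl (fl : List ℤ) : Type := AdjoinRoot (mq fl)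

theorem rt_root (fl : List ℤ) [Fact (Irreducible (mq fl))] :
    AdjoinRoot.root (mq fl) ^ fl.length + ev (AdjoinRoot.root (mq fl)) fl = 0 := by
  rw [← aeval_mq]
  exact (AdjoinRoot.aeval_eq (mq fl)).trans AdjoinRoot.mk_self

/-- The root as an algebraic integer. -/
noncomputable def rt (fl : List ℤ) [Fact (Irreducible (mq fl))] : 𝓞 (Fl fl) :=
  ⟨AdjoinRoot.root (mq fl), mp fl, monic_mp fl, by rw [← aeval_def, aeval_mp, rt_root]⟩

theorem gen_rt (fl : List ℤ) [h : Fact (Irreducible (mq fl))] : Gen (rt fl) fl :=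
  ⟨by rw [(AdjoinRoot.powerBasis' (monic_mq fl)).finrank, AdjoinRoot.powerBasis'_dim, mq,
      (monic_mp fl).natDegree_map, natDegree_mp],
    (minpoly.eq_of_irreducible_of_monic h.1 (by rw [aeval_mq]; exact rt_root fl) (monic_mq fl)).symm⟩

theorem coeff_pl : ∀ (l : List ℤ) (i : ℕ), (pl l).coeff i = l.getD i 0
  | [], _ => by simp [pl]
  | c :: l, 0 => by simp [pl]
  | c :: l, i + 1 => by
    rw [pl, ev_cons, coeff_add, coeff_X_mul, ← pl, coeff_pl l i, ← C_eq_intCast, coeff_C_succ]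
    simp

/-- Eisenstein's condition. -/
def eisOK (fl : List ℤ) (p : ℕ) : Bool :=
  dvdL p fl && decide (fl.getD 0 0 % (p * p) ≠ 0)

theorem irr_of_eis {fl : List ℤ} {p : ℕ} (hp : p.Prime) (h : eisOK fl p = true) :
    Irreducible (mq fl) := by
  simp only [eisOK, dvdL, Bool.and_eq_true, decide_eq_true_eq, List.all_eq_true, beq_iff_eq] at h
  have h0 : 0 < fl.length := List.length_pos_iff.2 fun h0 => h.2 (by simp [h0])
  have hc : ∀ i < fl.length, (mp fl).coeff i = fl.getD i 0 := fun i hi => by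
    rw [mp, coeff_add, coeff_X_pow, if_neg hi.ne, zero_add, coeff_pl]
  have hd : (mp fl).degree = fl.length := by
    rw [degree_eq_natDegree (monic_mp fl).ne_zero, natDegree_mp]
  have hP := (Ideal.span_singleton_prime (by exact_mod_cast hp.ne_zero)).2
    (Nat.prime_iff_prime_int.1 hp)
  refine (IsPrimitive.Int.irreducible_iff_irreducible_map_cast (monic_mp fl).isPrimitive).1
    (irreducible_of_eisenstein_criterion hP ?_ (fun i hi => ?_) (hd ▸ by exact_mod_cast h0) ?_
      (monic_mp fl).isPrimitive)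
  · rw [(monic_mp fl).leadingCoeff]
    exact fun h1 => hP.ne_top ((Ideal.eq_top_iff_one _).2 h1)
  · have h1 : i < fl.length := by rw [hd] at hi; exact_mod_cast hi
    rw [hc i h1, Ideal.mem_span_singleton, List.getD_eq_getElem _ _ h1]
    exact Int.dvd_of_emod_eq_zero (h.1 _ (List.getElem_mem h1))
  · rw [hc 0 h0, Ideal.span_singleton_pow, Ideal.mem_span_singleton, sq]
    exact fun h1 => h.2 (Int.emod_eq_zero_of_dvd h1)

theorem Gen.irr {F : Type*} [Field F] [NumberField F] {α : 𝓞 F} {fl : List ℤ} (h : Gen α fl) :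
    Irreducible (mq fl) := by
  rw [mq, ← h.mpe]
  exact minpoly.irreducible (Algebra.IsIntegral.isIntegral _)

theorem irr_of_other {fl l gl l' : List ℤ} {d d' : ℤ} (hi : Irreducible (mq fl))
    (hc : genOK fl l d gl l' d' = true) : Irreducible (mq gl) :=
  have : Fact (Irreducible (mq fl)) := ⟨hi⟩
  ((gen_rt fl).other hc).elim fun _ h => h.2.irr

/-- The value of `cs` at `l / d` is `l'`. -/
def valOK (fl l : List ℤ) (d : ℤ) (cs l' : List ℤ) : Bool :=
  decide (d ≠ 0) && eqL 0 (smL d (hevM fl l d cs)) (smL (d ^ cs.length) l')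

theorem ev_other {R : Type*} [CommRing R] [IsDomain R] [CharZero R] {a g : R} {fl l cs l' : List ℤ}
    {d : ℤ} (h : a ^ fl.length + ev a fl = 0) (hg : d * g = ev a l)
    (hc : valOK fl l d cs l' = true) : ev g cs = ev a l' := by
  simp only [valOK, Bool.and_eq_true, decide_eq_true_eq] at hc
  have h1 := ev_eqL a Int.cast_zero hc.2
  rw [ev_smL, ev_hevM h hg, ev_smL, Int.cast_pow] at h1
  exact mul_left_cancel₀ (pow_ne_zero _ (Int.cast_ne_zero.2 hc.1)) h1

theorem Gen.cnt' {F : Type*} [Field F] [NumberField F] {α : 𝓞 F} {fl l gl l' : List ℤ} {d d' : ℤ}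
    (h : Gen α fl) {m r : ℕ} {ρ : List ℕ} {p : ℕ} (hp : p.Prime) {cs : List (Fac × ℕ)}
    (hc : (genOK fl l d gl l' d' && cntOK gl m r ρ p cs) = true) :
    Cnt F p (cs.map Prod.snd).sum :=
  (h.other (Bool.and_eq_true_iff.1 hc).1).elim fun _ h' => h'.2.cnt hp (Bool.and_eq_true_iff.1 hc).2

/-- The tower `θ ^ 3 = 2`, `α ^ 5 = a + b θ + c θ ^ 2 - (a' + b' θ + c' θ ^ 2)`. -/
def tw (a b c a' b' c' : ℕ) : List (ℕ × Ex) :=
  [(3, .c 2), (5, .add (.add (.c a) (.mul (.v 0) (.add (.c b) (.mul (.v 0) (.c c)))))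
    (.neg (.add (.c a') (.mul (.v 0) (.add (.c b') (.mul (.v 0) (.c c')))))))]

theorem tw_ok {F : Type*} [Field F] [NumberField F] {α : 𝓞 F} {fl l : List ℤ} {d : ℤ}
    (h : Gen α fl) {a b c a' b' c' : ℕ} (hc : (intOK fl l d [-2, 0, 0] &&
      valOK fl l d [a - a', b - b', c - c'] [0, 0, 0, 0, 0, 1]) = true) :
    Tw α (.v 0) (tw a b c a' b' c') [] := by
  rw [Bool.and_eq_true] at hc
  obtain ⟨θ, h1, h2⟩ := exists_int h.root hc.1
  have h3 := ev_other h.root h1 hc.2
  refine ⟨Nat.prime_three, θ, ?_, Nat.prime_five, α, ?_, rfl⟩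
  · simp only [Ex.evR]
    simp only [ev_cons, ev_nil, List.length_cons, List.length_nil] at h2
    push_cast at h2 ⊢
    linear_combination h2
  · simp only [Ex.evR, nth]
    simp only [ev_cons, ev_nil] at h3
    push_cast at h3
    linear_combination -h3

end Pool.Agent.Lib.MP_ab8df0_nt.A
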