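import Pool.Agent.Lib.MP_ab8df0_nt.A.Ev

/-! A fast check that a packed element lies in a prime of degree one and has small norm. -/

namespace Pool.Agent.Lib.MP_ab8df0_nt.A

open NumberField Pool.Agent.Stark Ideal

/-- Horner evaluation for natural numbers. -/
def evN (x : ℕ) : List ℕ → ℕ
  | [] => 0
  | c :: l => c + x * evN x l

/-- The first digits in a base. -/
def digs (B : ℕ) : ℕ → ℕ → List ℕ
  | 0, _ => []
  | k + 1, c => c % B :: digs B k (c / B)

/-- Geometric sum. -/
def geo (x n : ℕ) : ℕ := evN x (List.replicate n 1)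

/-- Linear combination of a list with the digits of `c`. -/
noncomputable def accW (B : ℕ) (W : List ℕ) : ℕ → ℕ → ℕ :=
  List.rec (fun _ V => V)
    (fun Wi _ ih c V => ih (Nat.div c B) (Nat.add V (Nat.mul (Nat.mod c B) Wi))) W

/-- Product of the first digits. -/
noncomputable def prS (S : ℕ) (k : ℕ → ℕ → ℕ) (n : ℕ) : ℕ → ℕ → ℕ :=
  Nat.rec (fun V a => k V a) (fun _ ih V a => ih (Nat.div V S) (Nat.mul a (Nat.mod V S))) n

/-- Packed powers of the roots. -/
def mkW (S m n : ℕ) (ρ : List ℕ) : ℕ → ℕ → List ℕ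
  | _, 0 => []
  | i, k + 1 => (evN S (ρ.map fun x => x ^ i % m) + S ^ (n + i)) :: mkW S m n ρ (i + 1) k

/-- The content of one slot. -/
def sl (B m x : ℕ) : ℕ → ℕ → ℕ → ℕ
  | _, 0, _ => 0
  | i, k + 1, c => c % B * (x ^ i % m) + sl B m x (i + 1) k (c / B)

theorem evN_add (S : ℕ) (f g : ℕ → ℕ) (l : List ℕ) :
    evN S (l.map fun x => f x + g x) = evN S (l.map f) + evN S (l.map g) := by
  induction l with
  | nil => rfl
  | cons a l ih => simp only [List.map_cons, evN, ih]; ring

theorem evN_mul (S c : ℕ) (f : ℕ → ℕ) (l : List ℕ) :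
    evN S (l.map fun x => c * f x) = c * evN S (l.map f) := by
  induction l with
  | nil => rfl
  | cons a l ih => simp only [List.map_cons, evN, ih]; ring

theorem evN_zero (S : ℕ) (l : List ℕ) : evN S (l.map fun _ => 0) = 0 := by
  induction l with
  | nil => rfl
  | cons a l ih => simp only [List.map_cons, evN, ih]; ring

theorem accW_mkW (B S m n : ℕ) (ρ : List ℕ) : ∀ k i c V, accW B (mkW S m n ρ i k) c V =
    V + evN S (ρ.map fun x => sl B m x i k c) + S ^ (n + i) * evN S (digs B k c)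
  | 0, i, c, V => by simp only [mkW, sl, evN_zero, digs, evN]; rfl
  | k + 1, i, c, V => by
    refine (accW_mkW B S m n ρ k (i + 1) (c / B) (V + c % B * _)).trans ?_
    simp only [sl, digs, evN, evN_add, evN_mul]
    ring

theorem sl_le {B m : ℕ} (hB : 0 < B) (hm : 0 < m) (x : ℕ) : ∀ k i c, sl B m x i k c ≤ k * (B * m)
  | 0, i, c => by simp [sl]
  | k + 1, i, c => by
    have h1 := sl_le hB hm x k (i + 1) (c / B)
    have h2 : c % B * (x ^ i % m) ≤ B * m :=
      Nat.mul_le_mul (Nat.mod_lt _ hB).le (Nat.mod_lt _ hm).le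
    rw [sl, Nat.succ_mul]
    omega

theorem sl_cast (B m x : ℕ) : ∀ k i c,
    (sl B m x i k c : ZMod m) = (x : ZMod m) ^ i * (evN x (digs B k c) : ℕ)
  | 0, i, c => by simp [sl, digs, evN]
  | k + 1, i, c => by
    simp only [sl, digs, evN, Nat.cast_add, Nat.cast_mul, sl_cast B m x k, ZMod.natCast_mod,
      Nat.cast_pow]
    ring

theorem prS_eq (S : ℕ) (κ : ℕ → ℕ → ℕ) (C : ℕ) : ∀ (l : List ℕ) (a : ℕ), (∀ x ∈ l, x < S) →
    prS S κ l.length (evN S l + S ^ l.length * C) a = κ C (a * l.prod)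
  | [], a, _ => by simp [prS, evN]
  | x :: l, a, h => by
    have hx := h x (by simp)
    have e : evN S (x :: l) + S ^ (x :: l).length * C = x + S * (evN S l + S ^ l.length * C) := by
      rw [evN, List.length_cons]; ring
    change prS S κ l.length (_ / S) (a * (_ % S)) = _
    rw [e, Nat.add_mul_div_left _ _ (by omega), Nat.add_mul_mod_self_left, Nat.div_eq_of_lt hx,
      Nat.mod_eq_of_lt hx, zero_add, prS_eq S κ C l _ fun y hy => h y (by simp [hy]),
      List.prod_cons, mul_assoc]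

theorem prS_zero (S : ℕ) (κ : ℕ → ℕ → ℕ) (h : ∀ V a, κ V a = 0) : ∀ n V a, prS S κ n V a = 0
  | 0, V, a => h V a
  | n + 1, _, _ => prS_zero S κ h n _ _

theorem digs_lt {B : ℕ} (hB : 0 < B) : ∀ k c, ∀ u ∈ digs B k c, u < B
  | 0, c => by simp [digs]
  | k + 1, c => by
    intro u hu
    rcases List.mem_cons.1 hu with rfl | hu
    · exact Nat.mod_lt _ hB
    · exact digs_lt hB k _ u hu

theorem digs_length (B : ℕ) : ∀ k c, (digs B k c).length = k
  | 0, _ => rfl
  | k + 1, c => by rw [digs, List.length_cons, digs_length B k]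

theorem geo_succ (x n : ℕ) : geo x (n + 1) = 1 + x * geo x n := rfl

theorem ev_dec {R : Type*} [CommRing R] (x o : ℕ) (l : List ℕ) :
    ev (x : R) (l.map fun u : ℕ => (u : ℤ) - o) = (evN x l : ℕ) - (o * geo x l.length : ℕ) := by
  induction l with
  | nil => simp [evN, geo]
  | cons a l ih =>
    rw [List.map_cons, ev_cons, ih, evN, List.length_cons, geo_succ]; push_cast; ring

theorem evA_dec (r o : ℕ) (l : List ℕ) (h : ∀ u ∈ l, u < 2 * o) :
    evA r (l.map fun u : ℕ => (u : ℤ) - o) ≤ o * geo r l.length := by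
  induction l with
  | nil => simp [evA]
  | cons a l ih =>
    have h1 := h a (by simp)
    have h2 := Nat.mul_le_mul_left r (ih fun u hu => h u (by simp [hu]))
    rw [List.map_cons, evA, List.length_cons, geo_succ, mul_add, mul_left_comm]
    omega

theorem evN_le {x y B : ℕ} (hxy : x ≤ y) (l : List ℕ) (h : ∀ u ∈ l, u < B) :
    evN x l ≤ B * geo y l.length := by
  induction l with
  | nil => simp [evN]
  | cons a l ih =>
    have h1 := h a (by simp)
    have h2 := Nat.mul_le_mul hxy (ih fun u hu => h u (by simp [hu]))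
    rw [evN, List.length_cons, geo_succ, mul_add, mul_left_comm]
    omega

theorem geo_eq {x : ℕ} (hx : 2 ≤ x) (n : ℕ) : (x ^ n - 1) / (x - 1) = geo x n := by
  obtain ⟨y, rfl⟩ : ∃ y, x = y + 1 := ⟨x - 1, by omega⟩
  have : (y + 1) ^ n = y * geo (y + 1) n + 1 := by
    induction n with
    | zero => simp [geo, evN]
    | succ n ih => rw [pow_succ, ih, geo_succ]; nlinarith
  rw [this, Nat.add_sub_cancel, Nat.add_sub_cancel, Nat.mul_div_cancel_left _ (by omega)]

theorem evN_modEq {x y M : ℕ} (h : x ≡ y [MOD M]) (l : List ℕ) : evN x l ≡ evN y l [MOD M] := by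
  induction l with
  | nil => rfl
  | cons a l ih => exact (h.mul ih).add_left a

/-- The final tests on the norm and on the residue. -/
noncomputable def fin (n o S m N64 X0 p x out C a : ℕ) : ℕ :=
  (fun v => (fun A =>
    cond (Nat.ble x X0) (cond (Nat.beq (Nat.mod (Nat.mod C (Nat.sub S x)) p)
      (Nat.mod (Nat.mul o (Nat.div (Nat.pred (Nat.pow x n)) (Nat.pred x))) p))
      (cond (Nat.blt (Nat.pred (Nat.mul p p)) (Nat.div A (Nat.gcd A N64))) 0
        (Nat.rec 0 (fun _ _ => out) A)) 0) 0)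
    (cond (Nat.ble v (Nat.sub m v)) v (Nat.sub m v))) (Nat.mod a m)

/-- Reads an element from the stream and checks it; returns the rest of the stream or zero. -/
noncomputable def leaf (n B o S m : ℕ) (W : List ℕ) (Off BC N64 X0 p ρ st : ℕ) : ℕ :=
  prS S (fin n o S m N64 X0 p (Nat.add ρ p) (Nat.div st BC)) n (accW B W (Nat.mod st BC) Off) 1

theorem lt_of_ble {a b : ℕ} (h : Nat.ble a b = false) : b < a :=
  Nat.lt_of_not_le fun h' => by rw [Nat.ble_eq_true_of_le h'] at h; exact absurd h (by simp)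

theorem fin_ne {n o S m N64 X0 p x out C a : ℕ} (h : fin n o S m N64 X0 p x out C a ≠ 0) :
    out ≠ 0 ∧ x ≤ X0 ∧ C % (S - x) % p = o * ((x ^ n - 1) / (x - 1)) % p ∧
      min (a % m) (m - a % m) ≠ 0 ∧
      min (a % m) (m - a % m) / Nat.gcd (min (a % m) (m - a % m)) N64 ≤ p * p - 1 := by
  have e : cond (Nat.ble (Nat.mod a m) (Nat.sub m (Nat.mod a m))) (Nat.mod a m)
      (Nat.sub m (Nat.mod a m)) = min (a % m) (m - a % m) := by
    change cond (Nat.ble (a % m) (m - a % m)) (a % m) (m - a % m) = _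
    cases hh : Nat.ble (a % m) (m - a % m)
    · have := lt_of_ble hh
      simp only [cond_false]; omega
    · have := Nat.le_of_ble_eq_true hh
      simp only [cond_true]; omega
  simp only [fin, e] at h
  generalize min (a % m) (m - a % m) = A at *
  cases h1 : Nat.ble x X0 <;> rw [h1] at h
  · exact absurd rfl h
  rw [cond_true] at h
  generalize h2 : Nat.beq _ _ = b at h
  cases b
  · exact absurd rfl h
  rw [cond_true] at h
  generalize h3 : Nat.blt _ _ = b at h
  cases b
  swap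
  · exact absurd rfl h
  rw [cond_false] at h
  cases A with
  | zero => exact absurd rfl h
  | succ A =>
    refine ⟨h, Nat.le_of_ble_eq_true h1, Nat.eq_of_beq_eq_true h2, by omega, ?_⟩
    exact Nat.le_of_lt_succ (lt_of_ble h3)

theorem leaf_zero (n B o S m : ℕ) (W : List ℕ) (Off BC N64 X0 p ρ : ℕ) :
    leaf n B o S m W Off BC N64 X0 p ρ 0 = 0 :=
  prS_zero _ _ (fun _ _ => by_contra fun h => (fin_ne h).1 (Nat.zero_div BC)) _ _ _

/-- The parameters of the check are consistent. -/
def leafOK (fl : List ℤ) (N r : ℕ) (ρ : List ℕ) (n B o S m : ℕ) (W : List ℕ)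
    (Off N64 X0 : ℕ) : Bool :=
  splitOK fl m r ρ && decide (n = fl.length) && decide (ρ.length = n) && decide (B = 2 * o) &&
    decide (0 < o) && decide (W = mkW S m n ρ 0 n) &&
    decide (Off = evN S (ρ.map fun x => (m - 1) * (o * geo x n) % m)) &&
    decide (m + n * (B * m) ≤ S) && decide (2 * (o * geo r n) ^ n < m) &&
    decide (B * geo X0 n + X0 < S) && decide (N64 = N ^ 64)

variable {F : Type*} [Field F] [NumberField F] {α : 𝓞 F} {fl : List ℤ}

theorem leaf_rel (h : Gen α fl) {N r : ℕ} {ρ : List ℕ} {n B o S m : ℕ} {W : List ℕ}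
    {Off N64 X0 : ℕ} (hc : leafOK fl N r ρ n B o S m W Off N64 X0 = true) {BC p t st : ℕ}
    (hp : p.Prime) (hl : leaf n B o S m W Off BC N64 X0 p t st ≠ 0) (q : Pr F)
    (hq : absNorm q.asIdeal = p) (ψ : 𝓞 F →+* ZMod p) (hk : ∀ x, ψ x = 0 → x ∈ q.asIdeal)
    (ht : ψ α = t) : Rel N q := by
  simp only [leafOK, Bool.and_eq_true, decide_eq_true_eq] at hc
  obtain ⟨⟨⟨⟨⟨⟨⟨⟨⟨⟨hs, hn⟩, hρ⟩, hB⟩, ho⟩, rfl⟩, rfl⟩, hS⟩, hm⟩, hX⟩, rfl⟩ := hc
  have hB0 : 0 < B := by omega
  have hm0 : 0 < m := by omega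
  rw [leaf, accW_mkW, ← evN_add, add_zero] at hl
  generalize Nat.mod st BC = c at hl
  have e := prS_eq S (fin n o S m (N ^ 64) X0 p (t + p) (st / BC)) (evN S (digs B n c))
    (ρ.map fun x => (m - 1) * (o * geo x n) % m + sl B m x 0 n c) 1 (by
      intro y hy
      obtain ⟨x, -, rfl⟩ := List.mem_map.1 hy
      have h1 := sl_le hB0 hm0 x n 0 c
      have h2 := Nat.mod_lt ((m - 1) * (o * geo x n)) hm0
      omega)
  rw [List.length_map, hρ] at e
  obtain ⟨-, h1, h2, h3, h4⟩ := fin_ne (e ▸ hl)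
  have hd := digs_lt hB0 n c
  have hb := evA_dec r o (digs B n c) (hB ▸ hd)
  rw [digs_length] at hb
  have hnm := h.nm_eq hs ((digs B n c).map fun u : ℕ => (u : ℤ) - o) (v := (1 * (ρ.map fun x =>
    (m - 1) * (o * geo x n) % m + sl B m x 0 n c).prod) % m) (by
      rw [ZMod.natCast_mod, one_mul, Nat.cast_list_prod, List.map_map]
      congr 1
      refine List.map_congr_left fun x _ => ?_
      rw [Function.comp_apply, ev_dec, digs_length, Nat.cast_add, sl_cast, ZMod.natCast_mod,
        Nat.cast_mul, Nat.cast_pred hm0, ZMod.natCast_self]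
      ring) (Nat.mod_lt _ hm0) (by
      have := Nat.pow_le_pow_left hb n
      rw [← hn]
      omega)
  refine ⟨_, hk _ ?_, hnm ▸ h3, ?_⟩
  · have h5 := evN_le h1 _ hd
    rw [digs_length] at h5
    have h6 : evN S (digs B n c) % (S - (t + p)) = evN (t + p) (digs B n c) := by
      rw [evN_modEq (y := t + p) ((Nat.modEq_iff_dvd' (by omega)).2 dvd_rfl).symm,
        Nat.mod_eq_of_lt (by omega)]
    rw [h6, geo_eq (by have := hp.two_le; omega)] at h2
    rw [map_ev, ht, show (t : ZMod p) = (t + p : ℕ) by simp, ev_dec, digs_length, sub_eq_zero]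
    exact (ZMod.natCast_eq_natCast_iff' _ _ _).2 h2
  · rw [hnm, hq, sq]
    have := Nat.mul_pos hp.pos hp.pos
    omega

end Pool.Agent.Lib.MP_ab8df0_nt.A
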