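import Pool.Agent.Lib.MP_ab8df0_nt.A.Ext

/-! Identities between elements with a common denominator; towers with denominators. -/

namespace Pool.Agent.Lib.MP_ab8df0_nt.A

open NumberField Pool.Agent.Stark Ideal IsDedekindDomain

/-- Value of an expression at `l / D`, as a pair `(k, l')` standing for `l' / D ^ k`. -/
noncomputable def Ex.evL (fl : List ℤ) (D : ℤ) (ls : List (List ℤ)) : Ex → ℕ × List ℤ
  | c n => (0, [n])
  | v i => (1, nth [] ls i)
  | add a b => (fun x y : ℕ × List ℤ => (max x.1 y.1,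
      addL (smL (D ^ (y.1 - x.1)) x.2) (smL (D ^ (x.1 - y.1)) y.2))) (a.evL fl D ls) (b.evL fl D ls)
  | mul a b => (fun x y : ℕ × List ℤ => (x.1 + y.1, mulM fl x.2 y.2)) (a.evL fl D ls) (b.evL fl D ls)
  | neg a => (fun x : ℕ × List ℤ => (x.1, smL (-1) x.2)) (a.evL fl D ls)

theorem nth0 {A : Type*} (d a : A) (l : List A) : nth d (a :: l) 0 = a := rfl

theorem nth1 {A : Type*} (d a b : A) (l : List A) : nth d (a :: b :: l) 1 = b := rfl

theorem nth2 {A : Type*} (d a b c : A) (l : List A) : nth d (a :: b :: c :: l) 2 = c := rfl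

theorem nth3 {A : Type*} (d a b c e : A) (l : List A) : nth d (a :: b :: c :: e :: l) 3 = e := rfl

section Ring

variable {R : Type*} [CommRing R] {a : R} {fl : List ℤ} {D : ℤ}

theorem Ex.evL_eq (h : a ^ fl.length + ev a fl = 0) {xs : List R} {ls : List (List ℤ)}
    (hx : xs.map ((D : R) * ·) = ls.map (ev a)) (e : Ex) :
    D ^ (e.evL fl D ls).1 * e.evR xs = ev a (e.evL fl D ls).2 := by
  induction e with
  | c n => simp [evL, evR]
  | v i =>
    have h1 := nth_map (fun x : R => D * x) 0 xs i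
    have h2 := nth_map (ev a) [] ls i
    rw [mul_zero, hx] at h1
    simp only [evL, evR, pow_one]
    exact h1.symm.trans h2
  | add e f he hf =>
    simp only [evL, evR, ev_addL, ev_smL, ← he, ← hf, Int.cast_pow, ← mul_assoc, ← pow_add, mul_add]
    congr 3 <;> omega
  | mul e f he hf =>
    simp only [evL, evR, ev_mulM h, ← he, ← hf]
    ring
  | neg e he =>
    simp only [evL, evR, ev_smL, ← he]
    push_cast
    ring

/-- The expression vanishes at `l / D`. -/
noncomputable def exOK (fl : List ℤ) (D : ℤ) (ls : List (List ℤ)) (e : Ex) : Bool :=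
  decide (D ≠ 0) && dvdL 0 (e.evL fl D ls).2

theorem ex_zero [IsDomain R] [CharZero R] (h : a ^ fl.length + ev a fl = 0) {xs : List R}
    {ls : List (List ℤ)} (hx : xs.map ((D : R) * ·) = ls.map (ev a)) {e : Ex}
    (hc : exOK fl D ls e = true) : e.evR xs = 0 := by
  simp only [exOK, Bool.and_eq_true, decide_eq_true_eq] at hc
  have h1 := e.evL_eq h hx
  rw [ev_dvdL a Int.cast_zero hc.2] at h1
  exact (mul_eq_zero.1 h1).resolve_left (pow_ne_zero _ (Int.cast_ne_zero.2 hc.1))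

/-- Power of an expression. -/
def Ex.pow (e : Ex) : ℕ → Ex
  | 0 => .c 1
  | k + 1 => .mul e (e.pow k)

theorem Ex.evR_pow (xs : List R) (e : Ex) (k : ℕ) : (e.pow k).evR xs = e.evR xs ^ k := by
  induction k with
  | zero => simp [pow, evR]
  | succ k ih => rw [pow, evR, ih, pow_succ']

end Ring

theorem ex_zero_div {K : Type*} [Field K] [CharZero K] {a : K} {fl : List ℤ} {D : ℤ}
    (h : a ^ fl.length + ev a fl = 0) {ls : List (List ℤ)} {e : Ex} (hc : exOK fl D ls e = true) :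
    e.evR (ls.map fun l => ev a l / D) = 0 := by
  refine ex_zero h ?_ hc
  simp only [exOK, Bool.and_eq_true, decide_eq_true_eq] at hc
  rw [List.map_map]
  exact List.map_congr_left fun l _ => mul_div_cancel₀ _ (Int.cast_ne_zero.2 hc.1)

variable {F : Type*} [Field F] [NumberField F] {α : 𝓞 F} {fl : List ℤ}

/-- The tower equations hold for the elements `l / D`, and `d α` is the value of `al`. -/
noncomputable def twOK (fl : List ℤ) (D : ℤ) (d : ℕ) (al : Ex) :
    List (ℕ × Ex) → List (List ℤ) → List (List ℤ) → Bool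
  | [], _, acc => decide (D ≠ 0) &&
      (fun x : ℕ × List ℤ => eqL 0 x.2 [0, D ^ x.1 * d]) (al.evL fl D acc)
  | s :: T, ls, acc => decide (s.1 = 2 ∨ s.1 = 3 ∨ s.1 = 5) && decide (D ≠ 0) &&
      (fun x y : ℕ × List ℤ => eqL 0 (smL (D ^ y.1) x.2) (smL (D ^ x.1) y.2))
        (((Ex.v 0).pow s.1).evL fl D [ls.headD []]) (s.2.evL fl D acc) &&
      twOK fl D d al T ls.tail (ls.headD [] :: acc)

theorem tw_of (h : α ^ fl.length + ev α fl = 0) {D : ℤ} {d : ℕ} {al : Ex} : ∀ T ls acc (xs : List (𝓞 F)),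
    xs.map ((D : 𝓞 F) * ·) = acc.map (ev α) → twOK fl D d al T ls acc = true → Tw (d * α) al T xs
  | [], ls, acc, xs, hx, hc => by
    simp only [twOK, Bool.and_eq_true, decide_eq_true_eq] at hc
    have h1 := al.evL_eq h hx
    rw [ev_eqL α Int.cast_zero hc.2] at h1
    refine mul_left_cancel₀ (pow_ne_zero (al.evL fl D acc).1 (Int.cast_ne_zero.2 hc.1)) ?_
    rw [h1]
    simp [mul_comm, mul_assoc]
  | s :: T, ls, acc, xs, hx, hc => by
    simp only [twOK, Bool.and_eq_true, decide_eq_true_eq] at hc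
    obtain ⟨⟨⟨h1, h2⟩, h3⟩, h4⟩ := hc
    have hp : s.1.Prime := by rcases h1 with h1 | h1 | h1 <;> rw [h1] <;> norm_num
    have hD : (D : F) ≠ 0 := Int.cast_ne_zero.2 h2
    have hF : (α : F) ^ fl.length + ev (α : F) fl = 0 := by
      simpa [← coe_ev] using congrArg (algebraMap (𝓞 F) F) h
    have h5 := ((Ex.v 0).pow s.1).evL_eq hF (D := D) (xs := [ev (α : F) (ls.headD []) / D])
      (ls := [ls.headD []]) (by simp [mul_div_cancel₀ _ hD])
    have h6 := congrArg (algebraMap (𝓞 F) F) (s.2.evL_eq h hx)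
    have h7 := ev_eqL (α : F) Int.cast_zero h3
    rw [map_ev, map_mul, map_pow, map_intCast] at h6
    rw [ev_smL, ev_smL, ← h5, show ev (α : F) _ = _ from h6.symm, Ex.evR_pow, Int.cast_pow,
      Int.cast_pow, mul_left_comm] at h7
    have h8 : (ev (α : F) (ls.headD []) / D) ^ s.1 = algebraMap (𝓞 F) F (s.2.evR xs) :=
      mul_left_cancel₀ (pow_ne_zero _ hD) (mul_left_cancel₀ (pow_ne_zero _ hD) h7)
    refine ⟨hp, ⟨_, IsIntegral.of_pow hp.pos (h8 ▸ (s.2.evR xs).2)⟩, RingOfIntegers.ext h8,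
      tw_of h T _ _ _ ?_ h4⟩
    rw [List.map_cons, List.map_cons, hx]
    congr 1
    exact RingOfIntegers.ext (by simpa [coe_ev] using mul_div_cancel₀ _ hD)

/-- Reads the quotient by `d` from the stream. -/
noncomputable def lfD (lf : ℕ → ℕ → ℕ) (d R p t st : ℕ) : ℕ :=
  cond (Nat.beq (Nat.mod (Nat.mul d (Nat.mod st R)) p) t) (lf (Nat.mod st R) (Nat.div st R)) 0

/-- The check for one rational prime. -/
noncomputable def Cfg.wkD (c : Cfg) (d p st : ℕ) : ℕ :=
  walk (lfD (leaf c.n c.B c.o c.S c.m c.W c.Off c.BC c.N64 c.X0 p) d c.R p) c.R p c.al c.T [] st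

/-- The check for an interval. -/
noncomputable def Cfg.runD (c : Cfg) (d k : ℕ) (ss : List ℕ) (a : ℕ) : Bool :=
  Cfg.rec (fun n B o S m W Off BC N64 X0 R Q al T => loopC
    (fun p st => walk (lfD (leaf n B o S m W Off BC N64 X0 p) d R p) R p al T [] st) Q k ss a) c

theorem Cfg.covD (c : Cfg) (d a b k : ℕ) (ss : List ℕ) (h : c.runD d k ss a = true)
    (h1 : a % 2 = 1) (h2 : a + 2 * k * ss.length = b) : Cov (c.wkD d) c.Q a b :=
  h2 ▸ loopC_cov _ _ k ss a h1 h

theorem Cfg.rangeD (c : Cfg) (h : Gen α fl) {N r : ℕ} {ρ : List ℕ} (T0 : ℕ) {d a M : ℕ}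
    (hc : leafOK fl N r ρ c.n c.B c.o c.S c.m c.W c.Off c.N64 c.X0 = true)
    (hT : Tw (d * α) c.al c.T []) (hQ : (decide (T0.factorial % c.Q = 0) &&
      decide (T0.factorial % d = 0) && decide (2 ≤ T0) && decide (a ≤ T0 + 1) &&
      decide (M < (T0 + 1) ^ 2)) = true) (hcov : Cov (c.wkD d) c.Q a (M + 1)) :
    Range F N M (T0 + 1) (M + 1) := by
  simp only [Bool.and_eq_true, decide_eq_true_eq] at hQ
  obtain ⟨⟨⟨⟨hQ, hd⟩, h2⟩, ha⟩, hM⟩ := hQ
  intro p hT0 _ hp _ q n hn _ hq hle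
  obtain rfl : n = 1 := by
    by_contra hc
    have h1 : (T0 + 1) ^ 2 ≤ p ^ 2 := Nat.pow_le_pow_left hT0 2
    have h3 : p ^ 2 ≤ p ^ n := Nat.pow_le_pow_right hp.pos (by omega)
    omega
  rw [pow_one] at hq hle
  have key : ∀ x, T0.factorial % x = 0 → ¬ p ∣ x := fun x hx hd => by
    have := hp.dvd_factorial.1 (hd.trans (Nat.dvd_of_mod_eq_zero hx))
    omega
  obtain ⟨st, hst⟩ := hcov p (by omega) (by omega) (hp.eq_two_or_odd.resolve_left (by omega))
    ((Nat.Prime.coprime_iff_not_dvd hp).2 (key _ hQ))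
  obtain ⟨ψ, hψ⟩ := exists_res q hp hq
  obtain ⟨t, st', h3, h4⟩ := walk_ne (lf := lfD _ d c.R p) (fun _ => by_contra fun h0 =>
    (cond_ne h0).2 (by rw [show Nat.div 0 c.R = 0 from Nat.zero_div _, leaf_zero]))
    hp ψ _ _ _ _ hT rfl hst
  obtain ⟨h5, h6⟩ := cond_ne h4
  have : Fact p.Prime := ⟨hp⟩
  refine leaf_rel h hc hp h6 q hq ψ hψ (mul_left_cancel₀
    ((ZMod.natCast_eq_zero_iff d p).not.2 (key _ hd)) ?_)
  rw [map_mul, map_natCast] at h3
  rw [h3, ← Nat.eq_of_beq_eq_true h5, ← Nat.cast_mul]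
  exact ZMod.natCast_mod _ _

/-- The generators in terms of another primitive element, up to squares. -/
noncomputable def trOK (fl l : List ℤ) (d : ℤ) {k : ℕ} (g g' : Fin k → List ℤ) (c : Fin k → ℤ)
    (s : List ℤ) : Bool :=
  decide (d ≠ 0) && decide (∀ i, c i ≠ 0 ∧ eqL 0 (smL (d * c i ^ 2) (hevM fl l d (g i)))
    (smL (d ^ (g i).length) (mulM fl s (mulM fl s (g' i)))) = true)

theorem su_transfer {γ : 𝓞 F} (h : α ^ fl.length + ev α fl = 0) {l : List ℤ} {d : ℤ}
    (hγ : d * γ = ev α l) {k : ℕ} {g g' : Fin k → List ℤ} {c : Fin k → ℤ} {s : List ℤ}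
    (hc : trOK fl l d g g' c s = true) {ξ : F}
    (hξ : ∃ (e : Fin k → Bool) (u : F), ξ = (∏ i, if e i then ev (γ : F) (g i) else 1) * u ^ 2) :
    ∃ (e : Fin k → Bool) (u : F), ξ = (∏ i, if e i then ev (α : F) (g' i) else 1) * u ^ 2 := by
  simp only [trOK, Bool.and_eq_true, decide_eq_true_eq] at hc
  obtain ⟨e, u, rfl⟩ := hξ
  have h1 : ∀ i, ev (γ : F) (g i) = ev (α : F) (g' i) * (ev (α : F) s / c i) ^ 2 := fun i => by
    have h2 := ev_eqL α Int.cast_zero (hc.2 i).2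
    have h3 := ev_hevM h hγ (g i)
    rw [ev_smL, ev_smL, ev_mulM h, ev_mulM h] at h2
    push_cast at h2
    have h4 := congrArg (algebraMap (𝓞 F) F)
      (mul_left_cancel₀ (pow_ne_zero (g i).length (Int.cast_ne_zero.2 hc.1))
        (show _ * (ev γ (g i) * (c i : 𝓞 F) ^ 2) = _ * (ev α (g' i) * ev α s ^ 2) by
          linear_combination h2 - (c i : 𝓞 F) ^ 2 * h3))
    rw [div_pow, mul_div_assoc', eq_div_iff (pow_ne_zero _ (Int.cast_ne_zero.2 (hc.2 i).1))]
    simpa [map_ev] using h4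
  refine ⟨e, (∏ i, if e i then ev (α : F) s / c i else 1) * u, ?_⟩
  rw [mul_pow, ← mul_assoc, ← Finset.prod_pow, ← Finset.prod_mul_distrib]
  congr 1
  refine Finset.prod_congr rfl fun i _ => ?_
  split_ifs
  · exact h1 i
  · simp

end Pool.Agent.Lib.MP_ab8df0_nt.A
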