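import Pool.Agent.Lib.MP_ab8df0_nt.B.Kron

/-! Arithmetic of polynomials modulo a prime and a monic polynomial, on packed coefficients. -/

namespace Pool.Agent.Lib.MP_ab8df0_nt.A

open B

/-- Coefficients modulo `p`, packed in base `2 ^ K`. -/
noncomputable def pk (K p : ℕ) (l : List ℕ) : ℕ :=
  List.rec 0 (fun c _ r => Nat.add (Nat.mod c p) (Nat.shiftLeft r K)) l

/-- A reduced product is passed to `k`; the reduction is checked by one equation. -/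
noncomputable def mulQ (p G s iv mW mb a b : ℕ) (k : ℕ → Bool) : Bool :=
  (fun P => (fun QG => (fun R => (fun pT => (fun U =>
    cond (Nat.beq P (Nat.add QG (Nat.add pT U))) (k U) false)
    (Nat.land (Nat.sub R pT) mb))
    (Nat.mul p (Nat.land (Nat.shiftRight (Nat.mul R iv) s) mW)))
    (Nat.sub P QG))
    (Nat.mul (Nat.land (Nat.div P G) mW) G))
    (Nat.mul a b)

/-- A power is passed to the continuation. -/
noncomputable def pwQ (m : ℕ → ℕ → (ℕ → Bool) → Bool) (A k : ℕ) : ℕ → (ℕ → Bool) → Bool :=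
  Nat.rec (fun _ c => c 1) (fun _ ih e c => ih (Nat.div e 2) fun h => m h h fun h2 =>
    cond (Nat.beq (Nat.mod e 2) 0) (c h2) (m A h2 c)) k

/-- The product of `w` with all `y ^ p ^ j - X`, `1 ≤ j ≤ k`, is passed to `c`. -/
noncomputable def nrQ (m : ℕ → ℕ → (ℕ → Bool) → Bool) (p X : ℕ) (c : ℕ → Bool) (k : ℕ) :
    ℕ → ℕ → Bool :=
  Nat.rec (fun _ w => c w) (fun _ ih y w => pwQ m y (Nat.succ (Nat.log2 p)) p fun y' =>
    m w (Nat.add y' X) (ih y')) k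

/-- The product of all `X ^ p ^ j - X`, `1 ≤ j ≤ k`, has the inverse `u`. -/
noncomputable def nrA (p d b s K o NG : ℕ) (u : List ℕ) (k : ℕ) : Bool :=
  Nat.ble 2 d && Nat.ble p (Nat.pow 2 b) && Nat.ble NG (Nat.pow 2 (Nat.mul K d)) &&
    Nat.ble s K && Nat.ble b s &&
    Nat.blt (Nat.mul (Nat.add (Nat.mul 5 d) 3) (Nat.mul (Nat.pow 2 s) (Nat.pow 2 b))) (Nat.pow 2 K) &&
    (fun mW => (fun m => nrQ m p (Nat.shiftLeft (Nat.pred p) K) (fun w => m w (pk K p u) fun U =>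
      Nat.beq U (Nat.succ (Nat.mul p (Nat.land (Nat.div U p) mW)))) k (Nat.pow 2 K) 1)
      (mulQ p (Nat.sub (Nat.pow 2 (Nat.mul K d)) NG) s (Nat.div (Nat.pow 2 s) p) mW
        (Nat.mul (Nat.pred (Nat.pow 2 b)) o))) (Nat.mul (Nat.pred (Nat.pow 2 s)) o)

variable {R : Type*} [CommRing R] {a x y : R} {K c c' n n' N N' p : ℕ}

theorem od_uq (a : R) {B : ℕ} (hB : 0 < B) : ∀ l1 l2 : List ℕ, (∀ e ∈ l1, e < B) →
    (∀ e ∈ l2, e < B) → Nat.ofDigits B l1 = Nat.ofDigits B l2 →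
    Nat.ofDigits a l1 = Nat.ofDigits a l2 := by
  have z : ∀ l : List ℕ, Nat.ofDigits B l = 0 → Nat.ofDigits a l = 0 := fun l => by
    induction l with
    | nil => exact fun _ => rfl
    | cons e l ih =>
      intro h
      rw [Nat.ofDigits_cons, Nat.add_eq_zero_iff, mul_eq_zero] at h
      rw [od_cons, h.1, ih (h.2.resolve_left hB.ne')]
      simp
  intro l1
  induction l1 with
  | nil => exact fun l2 _ _ h => (z l2 h.symm).symm
  | cons e l ih =>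
    rintro (_ | ⟨f, m⟩) h1 h2 h
    · exact z _ h
    rw [Nat.ofDigits_cons, Nat.ofDigits_cons] at h
    have he := h1 e (by simp)
    have hf := h2 f (by simp)
    have h3 := congrArg (· % B) h
    simp only [Nat.add_mul_mod_self_left, Nat.mod_eq_of_lt he, Nat.mod_eq_of_lt hf] at h3
    subst h3
    rw [od_cons, od_cons, ih m (fun t ht => h1 t (by simp [ht])) (fun t ht => h2 t (by simp [ht]))
      (Nat.eq_of_mul_eq_mul_left hB (Nat.add_left_cancel h))]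

/-- `N` packs at most `n` coefficients bounded by `c` of a polynomial with value `x` at `a`. -/
def Rp (a : R) (K c n N : ℕ) (x : R) : Prop :=
  ∃ l : List ℕ, l.length ≤ n ∧ (∀ e ∈ l, e ≤ c) ∧ N = Nat.ofDigits (2 ^ K) l ∧ x = Nat.ofDigits a l

theorem Rp.mono (h : Rp a K c n N x) (h1 : c ≤ c') (h2 : n ≤ n') : Rp a K c' n' N x :=
  let ⟨l, p1, p2, p3⟩ := h
  ⟨l, p1.trans h2, fun e he => (p2 e he).trans h1, p3⟩

theorem Rp.add (h : Rp a K c n N x) (h' : Rp a K c' n' N' y) :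
    Rp a K (c + c') (max n n') (N + N') (x + y) := by
  obtain ⟨l, p1, p2, rfl, rfl⟩ := h
  obtain ⟨m, q1, q2, rfl, rfl⟩ := h'
  exact ⟨ladd l m, by rw [len_ladd]; omega, bd_ladd l m p2 q2, (od_ladd _ l m).symm,
    (od_ladd _ l m).symm⟩

theorem Rp.mul (h : Rp a K c n N x) (h' : Rp a K c' n' N' y) :
    Rp a K (n * (c * c')) (n + n') (N * N') (x * y) := by
  obtain ⟨l, p1, p2, rfl, rfl⟩ := h
  obtain ⟨m, q1, q2, rfl, rfl⟩ := h'
  exact ⟨conv l m, (len_conv m n' (by omega) l).trans (by omega),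
    fun e he => (bd_conv m q2 l p2 e he).trans (Nat.mul_le_mul_right _ p1), (od_conv _ l m).symm,
    (od_conv _ l m).symm⟩

theorem Rp.const (a : R) (K c : ℕ) : Rp a K c 1 c c :=
  ⟨[c], le_rfl, by simp, by simp, by simp [od_cons, od_nil]⟩

theorem Rp.pw (a : R) (K : ℕ) : ∀ d, Rp a K 1 (d + 1) (2 ^ (K * d)) (a ^ d)
  | 0 => by simpa using Rp.const a K 1
  | d + 1 => by
    obtain ⟨l, p1, p2, p3, p4⟩ := Rp.pw a K d
    exact ⟨0 :: l, by simpa using p1, by simpa using p2,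
      by rw [Nat.ofDigits_cons, ← p3]; ring, by rw [od_cons, ← p4]; push_cast; ring⟩

theorem Rp.uniq (h : Rp a K c n N x) (h' : Rp a K c' n' N y) (h1 : c < 2 ^ K) (h2 : c' < 2 ^ K) :
    x = y := by
  obtain ⟨l, -, p2, p3, rfl⟩ := h
  obtain ⟨m, -, q2, q3, rfl⟩ := h'
  exact od_uq a (by positivity) l m (fun e he => (p2 e he).trans_lt h1)
    (fun e he => (q2 e he).trans_lt h2) (p3.symm.trans q3)

theorem Rp.mask (a : R) {s : ℕ} (h : s ≤ K) (d N : ℕ) :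
    ∃ x, Rp a K (2 ^ s) d (Nat.land N (Nat.mul (Nat.pred (Nat.pow 2 s)) (ones K d))) x :=
  let ⟨l, p1, p2, p3⟩ := mask_any h d N
  ⟨_, l, p1, fun e he => (p2 e he).le, p3, rfl⟩

theorem Rp.pk (a : R) (hp0 : 0 < p) (hp : (p : R) = 0) (K : ℕ) :
    ∀ l : List ℕ, Rp a K p l.length (pk K p l) (Nat.ofDigits a l)
  | [] => ⟨[], le_rfl, by simp, rfl, rfl⟩
  | e :: l => by
    obtain ⟨m, p1, p2, p3, p4⟩ := Rp.pk a hp0 hp K l
    refine ⟨e % p :: m, by simpa using p1, ?_, ?_, ?_⟩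
    · simpa [(Nat.mod_lt e hp0).le] using p2
    · change e % p + A.pk K p l <<< K = _
      rw [Nat.ofDigits_cons, ← p3, Nat.shiftLeft_eq, mul_comm]
    · rw [od_cons, od_cons, ← p4]
      conv_lhs => rw [← Nat.mod_add_div e p]
      push_cast
      rw [hp]; ring

/-- What is used on a multiplication with continuation. -/
def MulOK (a : R) (K b d : ℕ) (m : ℕ → ℕ → (ℕ → Bool) → Bool) : Prop :=
  ∀ (A B n : ℕ) (x y : R) (k : ℕ → Bool), Rp a K (2 * 2 ^ b) d A x → Rp a K (2 * 2 ^ b) n B y →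
    m A B k = true → ∃ U, Rp a K (2 ^ b) d U (x * y) ∧ k U = true

theorem mulQ_ok (hp : (p : R) = 0) {b d s NG : ℕ} (iv : ℕ) (hg : Rp a K p d NG (a ^ d))
    (h1 : p ≤ 2 ^ b) (h2 : NG ≤ 2 ^ (K * d)) (h3 : s ≤ K) (h4 : b ≤ s)
    (h5 : (5 * d + 3) * (2 ^ s * 2 ^ b) < 2 ^ K) :
    MulOK a K b d (mulQ p (Nat.sub (Nat.pow 2 (Nat.mul K d)) NG) s iv
      (Nat.mul (Nat.pred (Nat.pow 2 s)) (ones K d)) (Nat.mul (Nat.pred (Nat.pow 2 b)) (ones K d))) := by
  intro A B n x y k hA hB h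
  unfold mulQ at h
  beta_reduce at h
  obtain ⟨q, hq⟩ := Rp.mask a h3 d (Nat.div (Nat.mul A B) (Nat.sub (Nat.pow 2 (Nat.mul K d)) NG))
  generalize Nat.land (Nat.div (Nat.mul A B) _) _ = Q at h hq
  generalize Nat.sub (Nat.mul A B) _ = W at h
  obtain ⟨t, ht⟩ := Rp.mask a h3 d (Nat.shiftRight (Nat.mul W iv) s)
  generalize Nat.land (Nat.shiftRight _ s) _ = T at h ht
  obtain ⟨u, hu⟩ := Rp.mask a (h4.trans h3) d (Nat.sub W (Nat.mul p T))
  generalize Nat.land (Nat.sub W _) _ = U at h hu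
  cases he : Nat.beq (Nat.mul A B) _ <;> rw [he] at h
  · cases h
  have h6 : A * B = Q * (2 ^ (K * d) - NG) + (p * T + U) := Nat.eq_of_beq_eq_true he
  have h7 : A * B + Q * NG = 2 ^ (K * d) * 0 + (Q * 2 ^ (K * d) + (p * T + U)) := by
    obtain ⟨r, hr⟩ := Nat.exists_eq_add_of_le h2
    rw [h6, hr, Nat.add_sub_cancel_left]; ring
  rw [mul_zero, zero_add] at h7
  obtain ⟨l, p1, p2, p3, p4⟩ := hq
  have hs : Rp a K (2 ^ s) (d + d) (Q * 2 ^ (K * d)) (q * a ^ d) :=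
    ⟨List.replicate d 0 ++ l, by simpa using p1, fun e he => (List.mem_append.1 he).elim
      (fun h => by rw [List.eq_of_mem_replicate h]; exact Nat.zero_le _) (p2 e),
      by rw [Nat.ofDigits_append, Nat.ofDigits_replicate_zero, List.length_replicate, ← p3,
        ← pow_mul]; ring, by
      rw [p4]
      clear hg h2 h5 hA hB h he h6 h7 ht hu p1
      induction d with
      | zero => simp
      | succ d ih => rw [List.replicate_succ, List.cons_append, od_cons, ← ih]; push_cast; ring⟩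
  have e1 := (hA.mul hB).add (Rp.mul ⟨l, p1, p2, p3, p4⟩ hg)
  have e2 := hs.add (((Rp.const a K p).mul ht).add hu)
  have b1 : 2 ^ b ≤ 2 ^ s := Nat.pow_le_pow_right (by norm_num) h4
  have b2 : 1 ≤ 2 ^ b := Nat.one_le_two_pow
  rw [h7] at e1
  have e3 := e1.uniq e2 ?_ ?_
  · refine ⟨U, ?_, h⟩
    rw [hp] at e3
    rwa [show x * y = u by linear_combination e3]
  · generalize 2 ^ b = β at *
    generalize 2 ^ s = σ at *
    have c1 : β * β ≤ σ * β := Nat.mul_le_mul_right _ b1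
    have c2 : σ * p ≤ σ * β := Nat.mul_le_mul_left _ h1
    have c3 := Nat.mul_le_mul_left d c1
    have c4 := Nat.mul_le_mul_left d c2
    nlinarith
  · generalize 2 ^ b = β at *
    generalize 2 ^ s = σ at *
    have c1 : σ ≤ σ * β := Nat.le_mul_of_pos_right _ b2
    have c2 : p * σ ≤ β * σ := Nat.mul_le_mul_right _ h1
    nlinarith [Nat.zero_le (d * (σ * β))]

section
variable {b d : ℕ} {m : ℕ → ℕ → (ℕ → Bool) → Bool}

theorem Rp.dbl (h : Rp a K (2 ^ b) n N x) : Rp a K (2 * 2 ^ b) n N x := h.mono (by omega) le_rfl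

theorem pwQ_ok (hm : MulOK a K b d m) (hd : 1 ≤ d) {A : ℕ} (hA : Rp a K (2 ^ b) d A x) :
    ∀ (k e : ℕ) (c : ℕ → Bool), e < 2 ^ k → pwQ m A k e c = true →
      ∃ U, Rp a K (2 ^ b) d U (x ^ e) ∧ c U = true
  | 0, e, c, he, h => by
    obtain rfl : e = 0 := by omega
    exact ⟨1, by simpa using (Rp.const a K 1).mono Nat.one_le_two_pow hd, h⟩
  | k + 1, e, c, he, h => by
    obtain ⟨U, h1, h2⟩ := pwQ_ok hm hd hA k (e / 2) _ (by omega) h
    obtain ⟨V, h3, h4⟩ := hm _ _ _ _ _ _ h1.dbl h1.dbl h2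
    cases h5 : Nat.beq (Nat.mod e 2) 0 <;> rw [h5] at h4
    · obtain ⟨W, h6, h7⟩ := hm _ _ _ _ _ _ hA.dbl h3.dbl h4
      have h8 : e % 2 ≠ 0 := Nat.ne_of_beq_eq_false h5
      exact ⟨W, by rwa [← pow_add, ← pow_succ', show e / 2 + e / 2 + 1 = e by omega] at h6, h7⟩
    · have h8 : e % 2 = 0 := Nat.eq_of_beq_eq_true h5
      exact ⟨V, by rwa [← pow_add, show e / 2 + e / 2 = e by omega] at h3, h4⟩

theorem nrQ_ok (hm : MulOK a K b d m) (hd : 1 ≤ d) {X : ℕ} (hX : Rp a K (2 ^ b) d X (-a))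
    (c : ℕ → Bool) : ∀ (k Y W : ℕ) (y w : R), Rp a K (2 ^ b) d Y y → Rp a K (2 ^ b) d W w →
      nrQ m p X c k Y W = true → ∃ U u, Rp a K (2 ^ b) d U u ∧ c U = true ∧
        ((w = 0 ∨ ∃ j, 0 < j ∧ j ≤ k ∧ y ^ p ^ j = a) → u = 0)
  | 0, _, W, _, w, _, hW, h =>
    ⟨W, w, hW, h, fun h2 => h2.resolve_right fun ⟨j, _, _, _⟩ => by omega⟩
  | k + 1, Y, W, y, w, hY, hW, h => by
    obtain ⟨Y', h1, h2⟩ := pwQ_ok hm hd hY _ p _ Nat.lt_log2_self h
    obtain ⟨W', h3, h4⟩ := hm _ _ _ _ _ _ hW.dbl ((h1.add hX).mono (by omega) le_rfl) h2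
    obtain ⟨U, u, h5, h6, h7⟩ := nrQ_ok hm hd hX c k Y' W' _ _ h1 h3 h4
    refine ⟨U, u, h5, h6, fun h8 => h7 ?_⟩
    rcases h8 with rfl | ⟨j, h8, h9, h10⟩
    · exact Or.inl (zero_mul _)
    · rcases j with _ | _ | j
      · omega
      · exact Or.inl (by rw [zero_add, pow_one] at h10; rw [h10]; ring)
      · exact Or.inr ⟨j + 1, by omega, by omega, by rw [← pow_mul, ← pow_succ', h10]⟩

end

theorem nrA_ok [Nontrivial R] (hp0 : 0 < p) (hp : (p : R) = 0) {ng u : List ℕ} {b s k : ℕ}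
    (h : a ^ ng.length = Nat.ofDigits a ng)
    (hc : nrA p ng.length b s K (ones K ng.length) (pk K p ng) u k = true) {j : ℕ} (hj : 0 < j)
    (ha : a ^ p ^ j = a) : k < j := by
  by_contra hlt
  simp only [nrA, Bool.and_eq_true, Nat.ble_eq, Nat.blt_eq] at hc
  obtain ⟨⟨⟨⟨⟨⟨h1, h2⟩, h3⟩, h4⟩, h5⟩, h6⟩, h7⟩ := hc
  replace h2 : p ≤ 2 ^ b := h2
  replace h6 : (5 * ng.length + 3) * (2 ^ s * 2 ^ b) < 2 ^ K := h6
  have hm := mulQ_ok hp (Nat.div (Nat.pow 2 s) p) (h ▸ Rp.pk a hp0 hp K ng) h2 h3 h4 h5 h6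
  have b2 : 1 ≤ 2 ^ b := Nat.one_le_two_pow
  have hX : Rp a K (2 ^ b) ng.length (Nat.shiftLeft (Nat.pred p) K) (-a) :=
    ⟨[0, p - 1], h1, by simp; omega, by
      change (p - 1) <<< K = _
      simp [Nat.shiftLeft_eq, Nat.ofDigits, mul_comm], by
      simp [od_cons, od_nil, Nat.cast_pred hp0, hp]⟩
  obtain ⟨W, w, p1, p2, p3⟩ := nrQ_ok hm (by omega) hX _ k _ 1 a 1
    (by simpa using (Rp.pw a K 1).mono b2 h1) (by simpa using (Rp.const a K 1).mono b2 (by omega)) h7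
  obtain ⟨U, q1, q2⟩ := hm _ _ _ _ _ _ p1.dbl ((Rp.pk a hp0 hp K u).mono (by omega) le_rfl) p2
  obtain ⟨t, ht⟩ := Rp.mask a h4 ng.length (Nat.div U p)
  have q3 := ((Rp.const a K p).mul ht).add (Rp.const a K 1)
  rw [show p * _ + 1 = U from (Nat.eq_of_beq_eq_true q2).symm] at q3
  have b1 : 1 ≤ 2 ^ s := Nat.one_le_two_pow
  have q4 := q1.uniq q3 (by nlinarith [Nat.zero_le (ng.length * (2 ^ s * 2 ^ b))]) (by
    have c2 : p * 2 ^ s ≤ 2 ^ b * 2 ^ s := Nat.mul_le_mul_right _ h2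
    nlinarith [Nat.zero_le (ng.length * (2 ^ s * 2 ^ b)), Nat.mul_pos b1 b2])
  rw [p3 (Or.inr ⟨j, hj, by omega, ha⟩), hp] at q4
  simp at q4

end Pool.Agent.Lib.MP_ab8df0_nt.A
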