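import Pool.Agent.Lib.MP_ab8df0_nt.A.Walk
import Pool.Agent.Lib.MP_ab8df0_nt.A.Pack

/-! Primes of any degree above a small rational prime, from a factorisation modulo that prime. -/

namespace Pool.Agent.Lib.MP_ab8df0_nt.A

open NumberField Pool.Agent.Stark Ideal

/-- Horner evaluation of a list of natural numbers in a ring. -/
def evK {R : Type*} [CommRing R] (a : R) : List ℕ → R
  | [] => 0
  | c :: l => (c : R) + a * evK a l

/-- `prev :: r` cut to the length of `ng`, plus `t * ng + c * B`. -/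
noncomputable def fuse (t c : ℕ) (ng : List ℕ) : List ℕ → List ℕ → ℕ → List ℕ :=
  List.rec (fun _ _ _ => []) (fun n _ ih B r prev =>
    Nat.add (Nat.add prev (Nat.mul t n)) (Nat.mul c (B.headD 0)) :: ih B.tail r.tail (r.headD 0)) ng

/-- Product modulo `X ^ d - ng` and `p`. -/
noncomputable def mulN (p : ℕ) (ng A B : List ℕ) : List ℕ :=
  List.rec [] (fun c _ r => fuse (Nat.mod (nth 0 (0 :: r) ng.length) p) (Nat.mod c p) ng B r 0) A

/-- Power modulo `X ^ d - ng` and `p`. -/
noncomputable def pwN (p : ℕ) (ng A : List ℕ) (k : ℕ) : ℕ → List ℕ :=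
  Nat.rec (fun _ => [1]) (fun _ ih e => (fun h => cond (Nat.beq (Nat.mod e 2) 0) h (mulN p ng A h))
    ((fun h => mulN p ng h h) (ih (Nat.div e 2)))) k

/-- All entries are divisible by `p`. -/
def zeroN (p : ℕ) (l : List ℕ) : Bool := l.all fun c => Nat.beq (Nat.mod c p) 0

section Ring

variable {R : Type*} [CommRing R] {a : R} {p : ℕ} {ng : List ℕ}

theorem evK_head (a : R) (l : List ℕ) : evK a l = (l.headD 0 : ℕ) + a * evK a l.tail := by
  cases l <;> simp [evK]

theorem fuse_length (t c : ℕ) : ∀ (ng B r : List ℕ) (prev : ℕ),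
    (fuse t c ng B r prev).length = ng.length
  | [], _, _, _ => rfl
  | _ :: ng, _, _, _ => congrArg (· + 1) (fuse_length t c ng _ _ _)

theorem nth_head (r : List ℕ) (i : ℕ) : nth 0 (r.headD 0 :: r.tail) i = nth 0 r i := by
  cases r with
  | nil => rcases i with _ | i <;> rfl
  | cons => rfl

theorem fuse_ev (a : R) (t c : ℕ) : ∀ (ng B r : List ℕ) (prev : ℕ), B.length ≤ ng.length →
    r.length ≤ ng.length → evK a (fuse t c ng B r prev) +
      a ^ ng.length * (nth 0 (prev :: r) ng.length : ℕ) =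
        prev + a * evK a r + t * evK a ng + c * evK a B
  | [], [], [], prev, _, _ => by simp [fuse, evK, nth]
  | n :: ng, B, r, prev, h1, h2 => by
    have ih := fuse_ev a t c ng B.tail r.tail (r.headD 0) (by simp at h1 ⊢; omega)
      (by simp at h2 ⊢; omega)
    rw [nth_head] at ih
    change ((prev + t * n + c * B.headD 0 : ℕ) : R) + a * evK a (fuse t c ng B.tail r.tail _) +
      a ^ (ng.length + 1) * (nth 0 r ng.length : ℕ) = _
    rw [evK_head a B, evK_head a r, evK]
    push_cast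
    linear_combination a * ih

theorem mulN_length (p : ℕ) (ng A B : List ℕ) : (mulN p ng A B).length ≤ ng.length := by
  cases A with
  | nil => exact Nat.zero_le _
  | cons => exact (fuse_length ..).le

theorem cast_mod (hp : (p : R) = 0) (c : ℕ) : ((Nat.mod c p : ℕ) : R) = c := by
  conv_rhs => rw [← Nat.mod_add_div c p]
  push_cast
  rw [hp, zero_mul, add_zero]
  rfl

theorem mulN_ev (hp : (p : R) = 0) (h : a ^ ng.length = evK a ng) {B : List ℕ}
    (hB : B.length ≤ ng.length) : ∀ A, evK a (mulN p ng A B) = evK a A * evK a B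
  | [] => by simp [mulN, evK]
  | c :: A => by
    have h1 := fuse_ev a (Nat.mod (nth 0 (0 :: mulN p ng A B) ng.length) p) (Nat.mod c p) ng B
      (mulN p ng A B) 0 hB (mulN_length ..)
    rw [cast_mod hp, cast_mod hp, mulN_ev hp h hB A, h] at h1
    change evK a (fuse (Nat.mod (nth 0 (0 :: mulN p ng A B) ng.length) p) (Nat.mod c p) ng B
      (mulN p ng A B) 0) = _
    rw [evK]
    push_cast at h1
    linear_combination h1

theorem pwN_length (h1 : 1 ≤ ng.length) (A : List ℕ) : ∀ k e, (pwN p ng A k e).length ≤ ng.length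
  | 0, _ => h1
  | k + 1, e => by
    change (cond _ (mulN ..) (mulN ..)).length ≤ _
    cases Nat.beq (Nat.mod e 2) 0 <;> exact mulN_length ..

theorem pwN_ev (hp : (p : R) = 0) (h : a ^ ng.length = evK a ng) (h1 : 1 ≤ ng.length)
    (A : List ℕ) : ∀ k e, e < 2 ^ k → evK a (pwN p ng A k e) = evK a A ^ e
  | 0, e, he => by
    obtain rfl : e = 0 := by omega
    simp [pwN, evK]
  | k + 1, e, he => by
    have ih := pwN_ev hp h h1 A k (e / 2) (by rw [pow_succ] at he; omega)
    have h2 := mulN_ev hp h (pwN_length (p := p) h1 A k (e / 2)) (pwN p ng A k (e / 2))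
    rw [ih, ← pow_add] at h2
    change evK a (cond (Nat.beq (e % 2) 0)
      (mulN p ng (pwN p ng A k (e / 2)) (pwN p ng A k (e / 2))) (mulN p ng A
      (mulN p ng (pwN p ng A k (e / 2)) (pwN p ng A k (e / 2))))) = _
    cases h3 : Nat.beq (e % 2) 0
    · have := Nat.ne_of_beq_eq_false h3
      rw [cond_false, mulN_ev hp h (mulN_length ..), h2, ← pow_succ']
      congr 1; omega
    · have := Nat.eq_of_beq_eq_true h3
      rw [cond_true, h2]
      congr 1; omega

theorem evK_od (a : R) : ∀ l : List ℕ, evK a l = Nat.ofDigits a l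
  | [] => rfl
  | c :: l => by rw [evK, evK_od a l]; rfl

theorem zeroN_ev (hp : (p : R) = 0) (a : R) {l : List ℕ} (h : zeroN p l = true) :
    evK a l = 0 := by
  induction l with
  | nil => rfl
  | cons c l ih =>
    rw [zeroN, List.all_cons, Bool.and_eq_true] at h
    rw [evK, ih h.2, ← cast_mod hp, Nat.eq_of_beq_eq_true h.1]
    simp

theorem evK_toNat (hp0 : 0 < p) (hp : (p : R) = 0) (a : R) (l : List ℤ) :
    evK a (l.map fun c : ℤ => (c % p).toNat) = ev a l := by
  induction l with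
  | nil => rfl
  | cons c l ih =>
    rw [List.map_cons, evK, ih, ev_cons, ← Int.cast_natCast,
      Int.toNat_of_nonneg (Int.emod_nonneg _ (by omega)), Int.emod_def]
    push_cast
    rw [hp, zero_mul, sub_zero]

theorem ev_neg (a : R) (l : List ℕ) : ev a (l.map fun c : ℕ => -(c : ℤ)) = -evK a l := by
  induction l with
  | nil => simp [evK]
  | cons c l ih => rw [List.map_cons, ev_cons, ih, evK]; push_cast; ring

end Ring

/-- A factor `(X ^ d - ng) ^ e` without roots in the fields with `p ^ j` elements, `j < D`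
(witness `u`), and an element `β` of the ideal generated by `p` and the factor. -/
structure Fac : Type where
  ng : List ℕ
  (e D : ℕ)
  u : List ℕ
  β : List ℤ

/-- The product of the factors. -/
def prodF : List Fac → List ℤ
  | [] => [1]
  | c :: l => (mulL (c.ng.map (fun x : ℕ => -(x : ℤ)) ++ [1]))^[c.e] (prodF l)

/-- No roots in small fields. -/
noncomputable def Fac.nr (p : ℕ) (c : Fac) : Bool :=
  decide (1 ≤ c.ng.length) && (Nat.ble c.D 1 ||
    (fun b => (fun s => nrA p c.ng.length b s (Nat.mul 2 s) (B.ones (Nat.mul 2 s) c.ng.length)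
      (pk (Nat.mul 2 s) p c.ng) c.u (Nat.pred c.D))
      (Nat.add (Nat.mul b (Nat.add c.ng.length 2)) 6)) (Nat.add (Nat.log2 p) 2))

/-- The element lies in the ideal. -/
noncomputable def Fac.mem (p : ℕ) (c : Fac) : Bool :=
  zeroN p (mulN p c.ng (c.β.map fun x : ℤ => (x % p).toNat) [1])

theorem exists_fac {R : Type*} [CommRing R] [IsDomain R] (a : R) :
    ∀ l : List Fac, ev a (prodF l) = 0 → ∃ c ∈ l, a ^ c.ng.length = evK a c.ng
  | [], h => by simp [prodF] at h
  | c :: l, h => by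
    have key : ∀ e, ev a ((mulL (c.ng.map (fun x : ℕ => -(x : ℤ)) ++ [1]))^[e] (prodF l)) =
        (a ^ c.ng.length - evK a c.ng) ^ e * ev a (prodF l) := by
      intro e
      induction e with
      | zero => simp
      | succ e ih =>
        rw [Function.iterate_succ_apply', ev_mulL, ih, ev_append_one, ev_neg, List.length_map]
        ring
    rw [prodF, key] at h
    rcases mul_eq_zero.1 h with h | h
    · exact ⟨c, by simp, sub_eq_zero.1 (pow_eq_zero_iff'.1 h).1⟩
    · obtain ⟨c', h1, h2⟩ := exists_fac a l h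
      exact ⟨c', by simp [h1], h2⟩

theorem Fac.le_of_nr {R : Type*} [CommRing R] [Nontrivial R] {a : R} {p : ℕ} (hp0 : 0 < p)
    (hp : (p : R) = 0) {c : Fac} (h : a ^ c.ng.length = evK a c.ng) (hc : c.nr p = true) {n : ℕ}
    (hn : 0 < n) (ha : a ^ p ^ n = a) : c.D ≤ n := by
  simp only [Fac.nr, Bool.and_eq_true, Bool.or_eq_true, Nat.ble_eq] at hc
  rcases hc.2 with h1 | h1
  · omega
  · have := nrA_ok hp0 hp (h.trans (evK_od a _)) h1 hn ha
    rw [Nat.pred_eq_sub_one] at this
    omega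

variable {F : Type*} [Field F] [NumberField F] {α : 𝓞 F} {fl : List ℤ}

theorem fac_of_prime (h : α ^ fl.length + ev α fl = 0) {p n : ℕ} {l : List Fac}
    (hl : eqL p (prodF l) (fl ++ [1]) = true) (hnr : ∀ c ∈ l, c.nr p = true) (q : Pr F)
    (hp0 : 0 < p) (hp : (p : 𝓞 F) ∈ q.asIdeal) (hn : 0 < n) (hq : absNorm q.asIdeal = p ^ n) :
    ∃ c ∈ l, c.D ≤ n ∧ (c.mem p = true → ev α c.β ∈ q.asIdeal) := by
  have : Finite (𝓞 F ⧸ q.asIdeal) := (absNorm_ne_zero_iff _).1 (hq ▸ pow_ne_zero _ hp0.ne')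
  have := Fintype.ofFinite (𝓞 F ⧸ q.asIdeal)
  have := q.isMaximal
  let := Ideal.Quotient.field q.asIdeal
  let π := Ideal.Quotient.mk q.asIdeal
  have h1 : ((p : ℕ) : 𝓞 F ⧸ q.asIdeal) = 0 := by
    rw [← map_natCast π]; exact Ideal.Quotient.eq_zero_iff_mem.2 hp
  have h2 := ev_eqL (π α) (by rw [Int.cast_natCast, h1]) hl
  rw [ev_append_one, ← map_ev π α fl, ← map_pow, ← map_add, h, map_zero] at h2
  obtain ⟨c, hc, h3⟩ := exists_fac _ l h2
  have h4 := hnr c hc
  refine ⟨c, hc, Fac.le_of_nr hp0 h1 h3 h4 hn ?_, fun h5 => ?_⟩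
  · have h5 := FiniteField.pow_card (π α)
    rwa [← Nat.card_eq_fintype_card, show Nat.card (𝓞 F ⧸ q.asIdeal) = p ^ n from hq] at h5
  · simp only [Fac.nr, Bool.and_eq_true, decide_eq_true_eq] at h4
    have h6 := mulN_ev h1 h3 (B := [1]) h4.1 (c.β.map fun x : ℤ => (x % p).toNat)
    rw [zeroN_ev h1 _ h5, evK_toNat hp0 h1, ← map_ev] at h6
    exact Ideal.Quotient.eq_zero_iff_mem.1 (by simpa [evK] using h6.symm)

/-- The check for one small prime. -/
noncomputable def chkP (fl : List ℤ) (N M m r : ℕ) (ρ : List ℕ) (p : ℕ) (l : List Fac) : Bool :=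
  eqL p (prodF l) (fl ++ [1]) && l.all fun c => c.nr p && (decide (M < p ^ c.D) || c.mem p &&
    (fun A => decide (A ≠ 0) && decide (A / Nat.gcd A (N ^ 64) < (p ^ c.D) ^ 2))
      (nmC fl.length m r ρ c.β))

/-- All primes of small norm above `p` satisfy a relation. -/
def Above (F : Type*) [Field F] [NumberField F] (N M p : ℕ) : Prop :=
  ∀ (q : Pr F) (n : ℕ), 0 < n → (p : 𝓞 F) ∈ q.asIdeal → absNorm q.asIdeal = p ^ n → p ^ n ≤ M →
    Rel N q

theorem chkP_above (h : Gen α fl) {N M m r : ℕ} {ρ : List ℕ} (hs : splitOK fl m r ρ = true)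
    {p : ℕ} (hp : 0 < p) {l : List Fac} (hc : chkP fl N M m r ρ p l = true) : Above F N M p := by
  intro q n hn h1 h2 h3
  simp only [chkP, Bool.and_eq_true, List.all_eq_true, Bool.or_eq_true, decide_eq_true_eq] at hc
  obtain ⟨c, h4, h5, h6⟩ := fac_of_prime h.root hc.1 (fun c hc' => (hc.2 c hc').1) q hp h1 hn h2
  have h7 : p ^ c.D ≤ p ^ n := Nat.pow_le_pow_right hp h5
  obtain ⟨h8, h9, h10⟩ := (hc.2 c h4).2.resolve_left (by omega)
  have h11 := h.nmC_eq hs _ h9
  rw [← h11] at h9 h10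
  exact ⟨_, h6 h8, h9, h10.trans_le (h2 ▸ Nat.pow_le_pow_left h7 2)⟩

/-- Runs through `k` consecutive numbers; those prime to `N` get a proper divisor or a check. -/
noncomputable def loopA (ck : ℕ → List Fac → Bool) (N k : ℕ) :
    ℕ → List (ℕ × List Fac) → Bool :=
  Nat.rec (fun _ _ => true) (fun _ ih n l => cond (Nat.beq (Nat.gcd n N) 1)
    (((fun c : ℕ × List Fac => (Nat.blt 1 c.1 && Nat.blt c.1 n && Nat.beq (Nat.mod n c.1) 0) ||
      ck n c.2) (l.headD (0, []))) && ih (Nat.succ n) l.tail) (ih (Nat.succ n) l)) k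

theorem loopA_ok (ck : ℕ → List Fac → Bool) (N : ℕ) : ∀ k n l, loopA ck N k n l = true →
    ∀ p, n ≤ p → p < n + k → p.Prime → ¬ p ∣ N → ∃ c, ck p c = true
  | 0, n, l, _, p, h1, h2, _, _ => by omega
  | k + 1, n, l, h, p, h1, h2, h3, h4 => by
    change cond (Nat.beq (Nat.gcd n N) 1) (_ && loopA ck N k (n + 1) _)
      (loopA ck N k (n + 1) l) = true at h
    cases h5 : Nat.beq (Nat.gcd n N) 1 <;> rw [h5] at h
    · have : p ≠ n := fun h6 => Nat.ne_of_beq_eq_false h5
        (h6 ▸ (Nat.Prime.coprime_iff_not_dvd h3).2 h4)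
      exact loopA_ok ck N k _ _ h p (by omega) (by omega) h3 h4
    · rw [cond_true, Bool.and_eq_true] at h
      by_cases h7 : p = n
      · subst h7
        have h8 := h.1
        simp only [Bool.or_eq_true, Bool.and_eq_true, Nat.blt_eq] at h8
        refine ⟨_, h8.resolve_left fun ⟨⟨h9, h10⟩, h11⟩ => ?_⟩
        have := (Nat.dvd_prime h3).1 (Nat.dvd_of_mod_eq_zero (Nat.eq_of_beq_eq_true h11))
        omega
      · exact loopA_ok ck N k _ _ h.2 p (by omega) (by omega) h3 h4

/-- All primes of small norm above the primes of an interval satisfy a relation. -/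
def Range (F : Type*) [Field F] [NumberField F] (N M a b : ℕ) : Prop :=
  ∀ p, a ≤ p → p < b → p.Prime → ¬ p ∣ N → Above F N M p

/-- The computational part of `Range`. -/
def CovA (fl : List ℤ) (N M m r : ℕ) (ρ : List ℕ) (a b : ℕ) : Prop :=
  ∀ p, a ≤ p → p < b → p.Prime → ¬ p ∣ N → ∃ c, chkP fl N M m r ρ p c = true

theorem covA (fl : List ℤ) (N M m r : ℕ) (ρ : List ℕ) (a k : ℕ) (l : List (ℕ × List Fac))
    (h : loopA (chkP fl N M m r ρ) N k a l = true) : CovA fl N M m r ρ a (a + k) :=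
  loopA_ok _ _ _ _ _ h

theorem CovA.range (h : Gen α fl) {N M m r : ℕ} {ρ : List ℕ} (hs : splitOK fl m r ρ = true)
    {a b : ℕ} (hc : CovA fl N M m r ρ a b) : Range F N M a b := fun p h1 h2 h3 h4 =>
  (hc p h1 h2 h3 h4).elim fun _ h5 => chkP_above h hs h3.pos h5

theorem Range.trans {N M a b c : ℕ} (h : Range F N M a b) (h' : Range F N M b c) :
    Range F N M a c := fun p h1 h2 => if h3 : p < b then h p h1 h3 else h' p (by omega) h2

theorem Cfg.range (c : Cfg) (h : Gen α fl) {N r : ℕ} {ρ : List ℕ} (T0 : ℕ) {a M : ℕ}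
    (hc : leafOK fl N r ρ c.n c.B c.o c.S c.m c.W c.Off c.N64 c.X0 = true)
    (hT : Tw α c.al c.T []) (hQ : c.Q ∣ T0.factorial) (h2 : 2 ≤ T0) (ha : a ≤ T0 + 1)
    (hM : M < (T0 + 1) ^ 2) (hcov : Cov c.wk c.Q a (M + 1)) : Range F N M (T0 + 1) (M + 1) :=
  fun _ h3 _ h4 _ q _ h5 _ h6 h7 => c.rel h hc hT hQ h2 ha hM hcov q h4 h5 h6 h7 h3

theorem Range.rel {N M : ℕ} (h : Range F N M 0 (M + 1)) (q : Pr F) (hN : (N : 𝓞 F) ∉ q.asIdeal)
    (hM : absNorm q.asIdeal ≤ M) : Rel N q := by
  obtain ⟨p, n, h1, h2, h3, h4⟩ := char_pow q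
  have h5 : p ≤ p ^ n := Nat.le_self_pow h2.ne' p
  refine h p (Nat.zero_le _) (by omega) h1 ?_ q n h2 h3 h4 (h4 ▸ hM)
  rintro ⟨c, rfl⟩
  exact hN (by rw [Nat.cast_mul]; exact q.asIdeal.mul_mem_right _ h3)

end Pool.Agent.Lib.MP_ab8df0_nt.A
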