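import Pool.Agent.Lib.MP_ab8df0_nt.A.Disc

/-! Counting the bad primes, quadratic characters, and the final statement. -/

namespace Pool.Agent.Lib.MP_ab8df0_nt.A

open NumberField Pool.Agent.Stark Ideal Polynomial Module IsDedekindDomain

variable {F : Type*} [Field F] [NumberField F] {α : 𝓞 F} {fl : List ℤ}

/-- At most `k` primes contain `N`. -/
def Cnt (F : Type*) [Field F] [NumberField F] (N k : ℕ) : Prop :=
  ∀ T : Finset (Pr F), (∀ q ∈ T, (N : 𝓞 F) ∈ q.asIdeal) → T.card ≤ k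

theorem Cnt.mul {a b k l : ℕ} (h : Cnt F a k) (h' : Cnt F b l) : Cnt F (a * b) (k + l) := by
  classical
  intro T hT
  rw [← Finset.card_filter_add_card_filter_not (s := T) fun q => (a : 𝓞 F) ∈ q.asIdeal]
  refine add_le_add (h _ fun q hq => (Finset.mem_filter.1 hq).2) (h' _ fun q hq => ?_)
  obtain ⟨h1, h2⟩ := Finset.mem_filter.1 hq
  have := hT q h1
  rw [Nat.cast_mul] at this
  exact (q.isPrime.mem_or_mem this).resolve_left h2

theorem card_le_sum {A B : Type*} (P : B → A → Prop) (k : B → ℕ) : ∀ (l : List B) (T : Finset A),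
    (∀ q ∈ T, ∃ c ∈ l, P c q) → (∀ c ∈ l, ∀ U : Finset A, (∀ q ∈ U, P c q) → U.card ≤ k c) →
      T.card ≤ (l.map k).sum
  | [], T, h, _ => by
    rw [Finset.eq_empty_of_forall_notMem (s := T) fun q hq => by simpa using h q hq]; simp
  | c :: l, T, h, h' => by
    classical
    rw [← Finset.card_filter_add_card_filter_not (s := T) (P c), List.map_cons, List.sum_cons]
    refine add_le_add (h' c (by simp) _ fun q hq => (Finset.mem_filter.1 hq).2)
      (card_le_sum P k l _ (fun q hq => ?_) fun c' hc => h' c' (by simp [hc]))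
    obtain ⟨h1, h2⟩ := Finset.mem_filter.1 hq
    obtain ⟨c', h3, h4⟩ := h q h1
    rcases List.mem_cons.1 h3 with rfl | h3
    · exact absurd h4 h2
    · exact ⟨c', h3, h4⟩

/-- The check of the number of primes above `p`. -/
noncomputable def cntOK (fl : List ℤ) (m r : ℕ) (ρ : List ℕ) (p : ℕ) (l : List (Fac × ℕ)) : Bool :=
  splitOK fl m r ρ && eqL p (prodF (l.map Prod.fst)) (fl ++ [1]) && l.all fun c =>
    c.1.nr p && c.1.mem p && decide (nmC fl.length m r ρ c.1.β % (p ^ c.1.D) ^ (c.2 + 1) ≠ 0)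

theorem Gen.cnt (h : Gen α fl) {m r : ℕ} {ρ : List ℕ} {p : ℕ} (hp : p.Prime)
    {l : List (Fac × ℕ)} (hc : cntOK fl m r ρ p l = true) : Cnt F p (l.map Prod.snd).sum := by
  simp only [cntOK, Bool.and_eq_true, List.all_eq_true, decide_eq_true_eq] at hc
  obtain ⟨⟨hs, h1⟩, h2⟩ := hc
  intro T hT
  refine card_le_sum (fun c q => p ^ c.1.D ∣ absNorm q.asIdeal ∧ ev α c.1.β ∈ q.asIdeal) _ l T
    (fun q hq => ?_) fun c hc U hU => ?_
  · obtain ⟨p', n, h3, h4, h5, h6⟩ := char_pow q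
    obtain rfl : p' = p := by
      by_contra hne
      have h7 := (Nat.isCoprime_iff_coprime.2 ((Nat.coprime_primes h3 hp).2 hne)).map
        (Int.castRingHom (𝓞 F))
      obtain ⟨a, b, h8⟩ := h7
      refine q.isPrime.ne_top ((eq_top_iff_one _).2 (h8 ▸ add_mem (mul_mem_left _ _ ?_)
        (mul_mem_left _ _ ?_)))
      · simpa using h5
      · simpa using hT q hq
    obtain ⟨c, h7, h8, h9⟩ := fac_of_prime h.root h1 (fun c hc => by
      obtain ⟨c', h7, rfl⟩ := List.mem_map.1 hc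
      exact (h2 c' h7).1.1) q h3.pos h5 h4 h6
    obtain ⟨c', h10, rfl⟩ := List.mem_map.1 h7
    exact ⟨c', h10, h6 ▸ pow_dvd_pow _ h8, h9 (h2 c' h10).1.2⟩
  · by_contra hlt
    have h3 := (h2 c hc).2
    rw [← h.nmC_eq hs _ fun h0 => h3 (by rw [h0, Nat.zero_mod]), ← absNorm_span] at h3
    have h4 : ∏ q ∈ U, q.asIdeal ∣ span {ev α c.1.β} :=
      Finset.prod_dvd_of_coprime (fun q _ q' _ hne => q.isCoprime_of_ne q' hne) fun q hq =>
        dvd_iff_le.2 ((span_singleton_le_iff_mem _).2 (hU q hq).2)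
    have h5 : ∏ _q ∈ U, p ^ c.1.D ∣ ∏ q ∈ U, absNorm q.asIdeal :=
      Finset.prod_dvd_prod_of_dvd _ _ fun q hq => (hU q hq).1
    rw [Finset.prod_const, ← map_prod] at h5
    exact h3 (Nat.mod_eq_zero_of_dvd (((pow_dvd_pow _ (by omega)).trans h5).trans
      (map_dvd absNorm h4)))

theorem prime_of_gcd {p T : ℕ} (h1 : 1 < p) (h2 : p < (T + 1) ^ 2)
    (h3 : Nat.gcd p T.factorial = 1) : p.Prime := by
  by_contra h
  have h4 := Nat.minFac_sq_le_self (by omega) h
  have h5 := Nat.minFac_prime h1.ne'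
  have h6 : p.minFac < T + 1 := lt_of_pow_lt_pow_left₀ 2 (Nat.zero_le _) (h4.trans_lt h2)
  have := Nat.dvd_gcd (Nat.minFac_dvd p) (h5.dvd_factorial.2 (Nat.le_of_lt_succ h6))
  rw [h3] at this
  exact h5.one_lt.ne' (Nat.dvd_one.1 this)

theorem Gen.sq_mod (h : Gen α fl) {p : ℕ} (hp : p.Prime) {x : ZMod p}
    (hx : x ^ fl.length + ev x fl = 0) (hD : nm (ev α (dL (fl ++ [1]))) % p ≠ 0) (G : ℤ[X])
    (hG : IsSquare (aeval (α : F) G)) : IsSquare (aeval x G) := by
  have : Fact p.Prime := ⟨hp⟩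
  obtain ⟨u, hu⟩ := hG
  obtain ⟨pb, h1, h2⟩ := h.exists_pb
  have hα : IsIntegral ℤ (α : F) := α.2
  have hi : IsIntegral ℤ u := IsIntegral.of_pow two_pos (by
    rw [sq, ← hu]
    exact IsIntegral.of_mem_of_fg _ hα.fg_adjoin_singleton _ (aeval_mem_adjoin_singleton _ _))
  have h3 := Algebra.discr_mul_isIntegral_mem_adjoin ℚ (R := ℤ) (B := pb) (h1 ▸ hα) hi
  rw [h1, Algebra.adjoin_singleton_eq_range_aeval] at h3
  obtain ⟨H, hH⟩ := h3
  generalize hD' : Algebra.norm ℤ (ev α (dL (fl ++ [1]))) = D at h2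
  have h4 : aeval (α : F) (C D ^ 2 * G - H ^ 2) = 0 := by
    have h5 : (aeval (α : F) H) ^ 2 = (D : F) ^ 2 * (u * u) := by
      rw [show aeval (α : F) H = _ from hH, h2, Algebra.smul_def, map_mul, map_pow, map_neg,
        map_one, map_intCast, mul_pow, mul_pow, ← pow_mul, mul_comm _ 2, pow_mul]
      ring
    rw [map_sub, map_mul, map_pow, map_pow, h5, hu, aeval_C]
    simp
  have h5 : mp fl ∣ C D ^ 2 * G - H ^ 2 := by
    rw [← Polynomial.map_dvd_map (Int.castRingHom ℚ) (RingHom.injective_int _) (monic_mp fl),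
      ← h.mpe]
    exact minpoly.dvd _ _ (by rwa [← algebraMap_int_eq, aeval_map_algebraMap])
  have h6 := map_dvd (aeval x) h5
  rw [aeval_mp, hx, zero_dvd_iff, map_sub, map_mul, map_pow, map_pow, aeval_C, sub_eq_zero] at h6
  have h7 : (D : ZMod p) ≠ 0 := fun h0 => hD (by
    rw [nm, hD']
    exact Nat.mod_eq_zero_of_dvd (Int.natCast_dvd.1 ((ZMod.intCast_zmod_eq_zero_iff_dvd _ _).1 h0)))
  refine ⟨aeval x H / D, ?_⟩
  field_simp
  rw [← h6]
  simp [mul_comm]

/-- The check of the quadratic characters. -/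
noncomputable def chrOK (fl : List ℤ) (D T : ℕ) {k : ℕ} (g : Fin k → List ℤ)
    (c : Fin k → ℕ × ℕ) : Bool :=
  decide (∀ i, (2 < (c i).1 ∧ (c i).1 < (T + 1) ^ 2 ∧ Nat.gcd (c i).1 T.factorial = 1 ∧
    D % (c i).1 ≠ 0 ∧ ev ((c i).2 : ℤ) (fl ++ [1]) % (c i).1 = 0) ∧ ∀ j,
      powm (ev ((c i).2 : ℤ) (g j) % (c i).1).toNat (c i).1 5 ((c i).1 / 2) =
        if j = i then (c i).1 - 1 else 1)

theorem asub {R : Type*} [CommRing R] (a : R) {k : ℕ} (g : Fin k → List ℤ) (e : Fin k → Bool) :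
    aeval a (sub (fun i => pl (g i)) e) = sub (fun i => ev a (g i)) e := by
  rw [sub, map_prod]
  exact Finset.prod_congr rfl fun j _ => by split_ifs <;> simp [aeval_pl]

theorem Gen.ind (h : Gen α fl) {T k : ℕ} {g : Fin k → List ℤ} {c : Fin k → ℕ × ℕ}
    (hc : chrOK fl (nm (ev α (dL (fl ++ [1])))) T g c = true) (e : Fin k → Bool)
    (he : IsSquare (sub (fun i => ev (α : F) (g i)) e)) (i : Fin k) : e i = false := by
  obtain ⟨⟨h1, h2, h3, h4, h5⟩, h6⟩ := of_decide_eq_true hc i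
  generalize (c i).1 = p at *
  generalize (c i).2 = x at *
  have hp := prime_of_gcd (by omega) h2 h3
  have : Fact p.Prime := ⟨hp⟩
  have : Fact (2 < p) := ⟨h1⟩
  have cast : ∀ l, (((ev (x : ℤ) l % p : ℤ)) : ZMod p) = ev (x : ZMod p) l := fun l => by
    rw [ZMod.intCast_mod]
    simpa using map_ev (Int.castRingHom (ZMod p)) x l
  have h7 := cast (fl ++ [1])
  rw [h5, ev_append_one, Int.cast_zero] at h7
  obtain ⟨w, hw⟩ := h.sq_mod hp h7.symm h4 (sub (fun i => pl (g i)) e) (by rwa [asub])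
  rw [asub] at hw
  by_contra hi
  have h8 : sub (fun i => ev (x : ZMod p) (g i)) e ^ (p / 2) = -1 := by
    have h9 : ∀ j, ev (x : ZMod p) (g j) ^ (p / 2) = if j = i then -1 else 1 := fun j => by
      have := powm_cast (ev (x : ℤ) (g j) % p).toNat p 5 (p / 2)
      rw [h6 j, ← Int.cast_natCast (R := ZMod p) (Int.toNat _),
        Int.toNat_of_nonneg (Int.emod_nonneg _ (by omega)), cast] at this
      rw [← this]
      split_ifs
      · rw [Nat.cast_pred hp.pos, ZMod.natCast_self, zero_sub]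
      · exact Nat.cast_one
    rw [sub, ← Finset.prod_pow, Finset.prod_eq_single i (fun j _ hj => by
      split_ifs
      · rw [h9, if_neg hj]
      · exact one_pow _) (by simp), if_pos (by simpa using hi), h9, if_pos rfl]
  have h9 : 2 * (p / 2) = p - 1 := by have := hp.eq_two_or_odd; omega
  rw [hw, ← sq, ← pow_mul, h9] at h8
  by_cases h0 : w = 0
  · rw [h0, zero_pow (by omega)] at h8
    simp at h8
  · rw [ZMod.pow_card_sub_one_eq_one h0] at h8
    exact ZMod.neg_one_ne_one h8.symm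

/-- The check of everything but the class group and the count of the bad primes. -/
noncomputable def topOK (fl : List ℤ) (N M m r : ℕ) (ρ : List ℕ) (D dF s : ℕ)
    (bs : List (List ℤ × ℤ × List ℤ)) (K E : ℕ) (zs : List GaussianInt) (T : ℕ) {k : ℕ}
    (g : Fin k → List ℤ) (c : Fin k → ℕ × ℕ) : Bool :=
  splitOK fl m r ρ && decide (D ≠ 0) && decide (nmC fl.length m r ρ (dL (fl ++ [1])) = D) &&
    basOK fl bs && decide (D < (dF + 1) * idx fl.length bs ^ 2) &&
    decide ((8000 ^ (fl.length / 2) * fl.length.factorial) ^ 2 * dF <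
      ((M + 1) * (6283 ^ (fl.length / 2) * fl.length ^ fl.length)) ^ 2) &&
    plcOK fl K E zs && decide (2 * fl.length + 2 * s ≤ 2 * k + 1 + zs.length) && decide (N ≠ 0) &&
    decide (∀ i, (fun A => A ≠ 0 ∧ N ^ 64 % A = 0) (nmC fl.length m r ρ (g i))) && chrOK fl D T g c

theorem Gen.SU (h : Gen α fl) {N M m r : ℕ} {ρ : List ℕ} {D dF s : ℕ}
    {bs : List (List ℤ × ℤ × List ℤ)} {K E : ℕ} {zs : List GaussianInt} {T k : ℕ}
    {g : Fin k → List ℤ} {c : Fin k → ℕ × ℕ}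
    (hc : topOK fl N M m r ρ D dF s bs K E zs T g c = true) (hs : Cnt F N s)
    (hR : Range F N M 0 (M + 1)) {ξ : F} (h0 : ξ ≠ 0)
    (hξ : ∀ v : HeightOneSpectrum (𝓞 F), (N : 𝓞 F) ∉ v.asIdeal →
      ∃ k : ℤ, v.valuation F ξ = WithZero.exp (2 * k)) :
    ∃ (e : Fin k → Bool) (u : F), ξ = (∏ i, if e i then ev (α : F) (g i) else 1) * u ^ 2 := by
  simp only [topOK, Bool.and_eq_true, decide_eq_true_eq] at hc
  obtain ⟨⟨⟨⟨⟨⟨⟨⟨⟨⟨h1, h2⟩, h3⟩, h4⟩, h5⟩, h6⟩, h7⟩, h8⟩, h9⟩, h10⟩, h11⟩ := hc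
  have hD := (h.nmC_eq h1 _ (h3 ▸ h2)).trans h3
  have hf := Ideal.finite_factors (I := span {(N : 𝓞 F)}) (by simpa using h9)
  have hS : ∀ q : Pr F, q ∈ hf.toFinset ↔ (N : 𝓞 F) ∈ q.asIdeal := fun q => by
    rw [Set.Finite.mem_toFinset, Set.mem_ofPred_eq, dvd_iff_le, span_singleton_le_iff_mem]
  have hS' := fun q => (hS q).2
  have hd := h.discr_le h4 (hD ▸ h2)
  have hd' : (discr F).natAbs ≤ dF := Nat.le_of_lt_succ (lt_of_mul_lt_mul_right
    ((hd.trans hD.le).trans_lt h5) (Nat.zero_le _))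
  have hr := InfinitePlace.card_add_two_mul_card_eq_rank F
  refine sel_span hf.toFinset (chr_zero N M _ hS' (mink h.deg (by rw [← h.deg]; omega) hd' h6)
    hR.rel) _ (fun i => ?_) (h.ind (hD ▸ h11)) ?_ ξ (isSel_of_val N _ hS' h0 hξ)
  · have h12 := h.nmC_eq h1 _ (h10 i).1
    rw [← coe_ev]
    exact isSel_of_nm N _ hS' _ (h12 ▸ (h10 i).1) (h12 ▸ Nat.dvd_of_mod_eq_zero (h10 i).2)
  · have h12 := h.places h7
    have h13 := hs _ fun q => (hS q).1
    omega

end Pool.Agent.Lib.MP_ab8df0_nt.A
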