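import Pool.Agent.Lib.MP_ab8df0_nt.A.Leaf

/-! Enumeration of the primes of degree one of a radical tower. -/

namespace Pool.Agent.Lib.MP_ab8df0_nt.A

open NumberField Pool.Agent.Stark Ideal

/-- Polynomial expressions. -/
inductive Ex : Type
  | c : ℕ → Ex
  | v : ℕ → Ex
  | add : Ex → Ex → Ex
  | mul : Ex → Ex → Ex
  | neg : Ex → Ex

/-- Entry of a list with default. -/
noncomputable def nth {A : Type*} (d : A) (l : List A) : ℕ → A :=
  List.rec (fun _ => d) (fun a _ ih i => Nat.rec a (fun j _ => ih j) i) l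

/-- Value of an expression in a ring. -/
noncomputable def Ex.evR {R : Type*} [CommRing R] (xs : List R) : Ex → R
  | c n => n
  | v i => nth 0 xs i
  | add a b => a.evR xs + b.evR xs
  | mul a b => a.evR xs * b.evR xs
  | neg a => -a.evR xs

/-- A natural number congruent to the value of an expression modulo `p`. -/
noncomputable def Ex.evN (p : ℕ) (vs : List ℕ) (e : Ex) : ℕ :=
  Ex.rec (fun n => n) (fun i => nth 0 vs i) (fun _ _ a b => Nat.add a b)
    (fun _ _ a b => Nat.mul a b) (fun _ a => Nat.mul (Nat.pred p) a) e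

theorem nth_map {A B : Type*} (f : A → B) (d : A) : ∀ (l : List A) (i : ℕ),
    nth (f d) (l.map f) i = f (nth d l i)
  | [], _ => rfl
  | _ :: _, 0 => rfl
  | _ :: l, i + 1 => nth_map f d l i

theorem Ex.map_evR {R : Type*} [CommRing R] {p : ℕ} (hp : 0 < p) (ψ : R →+* ZMod p) (xs : List R)
    (vs : List ℕ) (h : xs.map ψ = vs.map Nat.cast) (e : Ex) : ψ (e.evR xs) = (e.evN p vs : ℕ) := by
  induction e with
  | c n => exact map_natCast ψ n
  | v i =>
    have h1 := nth_map ψ 0 xs i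
    have h2 := nth_map (Nat.cast : ℕ → ZMod p) 0 vs i
    rw [map_zero, h] at h1
    rw [Nat.cast_zero] at h2
    exact h1.symm.trans h2
  | add a b ha hb => rw [evR, map_add, ha, hb]; exact (Nat.cast_add _ _).symm
  | mul a b ha hb => rw [evR, map_mul, ha, hb]; exact (Nat.cast_mul _ _).symm
  | neg a ha =>
    rw [evR, map_neg, ha]
    change _ = (((p - 1) * a.evN p vs : ℕ) : ZMod p)
    rw [Nat.cast_mul, Nat.cast_pred hp, ZMod.natCast_self]
    ring

/-- Modular power. -/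
noncomputable def powm (x p k : ℕ) : ℕ → ℕ :=
  Nat.rec (fun e => Nat.mod (Nat.pow x e) p) (fun _ ih e =>
    Nat.mod (Nat.mul (Nat.pow (ih (Nat.div e 16)) 16) (Nat.pow x (Nat.mod e 16))) p) k

theorem powm_cast (x p : ℕ) : ∀ k e, (powm x p k e : ZMod p) = (x : ZMod p) ^ e
  | 0, e => by
    change ((x ^ e % p : ℕ) : ZMod p) = _
    rw [ZMod.natCast_mod, Nat.cast_pow]
  | k + 1, e => by
    change (((powm x p k (e / 16)) ^ 16 * x ^ (e % 16) % p : ℕ) : ZMod p) = _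
    rw [ZMod.natCast_mod, Nat.cast_mul, Nat.cast_pow, powm_cast x p k, Nat.cast_pow, ← pow_mul,
      ← pow_add, Nat.div_add_mod']

theorem powm_lt (x : ℕ) {p : ℕ} (hp : 0 < p) : ∀ k e, powm x p k e < p
  | 0, _ => Nat.mod_lt _ hp
  | _ + 1, _ => Nat.mod_lt _ hp

/-- Runs through `r, r z, r z ^ 2, …`, passing the stream along. -/
noncomputable def iter (f : ℕ → ℕ → ℕ) (z p k : ℕ) : ℕ → ℕ → ℕ :=
  Nat.rec (fun _ st => st) (fun _ ih r st => ih (Nat.mod (Nat.mul r z) p) (f r st)) k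

theorem iter_zero {f : ℕ → ℕ → ℕ} (hf : ∀ r, f r 0 = 0) (z p : ℕ) : ∀ k r, iter f z p k r 0 = 0
  | 0, _ => rfl
  | k + 1, r => by
    change iter f z p k _ (f r 0) = 0
    rw [hf, iter_zero hf z p k]

theorem iter_ne {f : ℕ → ℕ → ℕ} (hf : ∀ r, f r 0 = 0) (z p : ℕ) : ∀ k r st,
    iter f z p k r st ≠ 0 → ∀ i < k, ∃ r' st' : ℕ, (r' : ZMod p) = r * z ^ i ∧ f r' st' ≠ 0
  | 0, _, _, _, i, hi => absurd hi (by omega)
  | k + 1, r, st, h, i, hi => by
    change iter f z p k (r * z % p) (f r st) ≠ 0 at h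
    rcases i with _ | i
    · exact ⟨r, st, by simp, fun h0 => h (by rw [h0, iter_zero hf])⟩
    · obtain ⟨r', st', h1, h2⟩ := iter_ne hf z p k _ _ h i (by omega)
      exact ⟨r', st', by rw [h1, ZMod.natCast_mod]; push_cast; ring, h2⟩

/-- One radical step: all solutions of `x ^ e = D` modulo `p` are passed to `f`. -/
noncomputable def step (f : ℕ → ℕ → ℕ) (R p e D st : ℕ) : ℕ :=
  cond (Nat.beq (Nat.mod p e) 1)
    (cond (Nat.beq (Nat.mod st 2) 0)
      (cond (Nat.ble (powm D p 4 (Nat.div p e)) 1) 0 (Nat.div st 2))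
      ((fun r z => cond (Nat.beq (Nat.mod (Nat.pow r e) p) D)
        (cond (Nat.beq (Nat.mod (Nat.pow z e) p) 1)
          (cond (Nat.beq (Nat.mod z p) 1) 0
            (iter f z p e r (Nat.div (Nat.div (Nat.div st 2) R) R))) 0) 0)
        (Nat.mod (Nat.div st 2) R) (Nat.mod (Nat.div (Nat.div st 2) R) R)))
    (cond (Nat.beq (Nat.mod (Nat.pow (Nat.mod st R) e) p) D) (f (Nat.mod st R) (Nat.div st R)) 0)

theorem cond_ne {b : Bool} {x : ℕ} (h : cond b x 0 ≠ 0) : b = true ∧ x ≠ 0 := by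
  cases b
  · exact absurd rfl h
  · exact ⟨rfl, h⟩

theorem cond_ne' {b : Bool} {x : ℕ} (h : cond b 0 x ≠ 0) : b = false ∧ x ≠ 0 := by
  cases b
  · exact ⟨rfl, h⟩
  · exact absurd rfl h

theorem step_zero {f : ℕ → ℕ → ℕ} (hf : ∀ r, f r 0 = 0) (R p e D : ℕ) : step f R p e D 0 = 0 := by
  by_contra h
  rw [step] at h
  cases h1 : Nat.beq (Nat.mod p e) 1 <;> rw [h1] at h
  · exact (cond_ne h).2 (by rw [show Nat.div 0 R = 0 from Nat.zero_div R, hf])
  · exact (cond_ne' h).2 rfl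

theorem step_ne {f : ℕ → ℕ → ℕ} (hf : ∀ r, f r 0 = 0) {R p e D st : ℕ} (hp : p.Prime)
    (he : e.Prime) (h : step f R p e (D % p) st ≠ 0) (x : ZMod p) (hx : x ^ e = D) :
    ∃ (r : ℕ) (st' : ℕ), x = r ∧ f r st' ≠ 0 := by
  have : Fact p.Prime := ⟨hp⟩
  have : NeZero e := ⟨he.ne_zero⟩
  have cast : ∀ {r D : ℕ}, Nat.beq (Nat.mod (Nat.pow r e) p) (D % p) = true →
      (r : ZMod p) ^ e = D := fun h => by
    rw [← Nat.cast_pow]
    exact (ZMod.natCast_eq_natCast_iff' _ _ _).2 (Nat.eq_of_beq_eq_true h)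
  rw [step] at h
  cases h1 : Nat.beq (Nat.mod p e) 1 <;> rw [h1] at h
  · obtain ⟨h2, h3⟩ := cond_ne h
    refine ⟨_, _, ?_, h3⟩
    have h4 := cast h2
    generalize ((Nat.mod st R : ℕ) : ZMod p) = r at h4
    by_cases hr : r = 0
    · rw [hr, zero_pow he.ne_zero, ← hx] at h4
      rw [hr, pow_eq_zero_iff he.ne_zero |>.1 h4.symm]
    have h5 : (x / r) ^ e = 1 := by rw [div_pow, hx, ← h4, div_self (pow_ne_zero _ hr)]
    have h6 : (x / r) ^ (p - 1) = 1 := ZMod.pow_card_sub_one_eq_one fun h0 => by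
      rw [h0, zero_pow he.ne_zero] at h5; exact zero_ne_one h5
    have h7 : e.Coprime (p - 1) := (Nat.Prime.coprime_iff_not_dvd he).2 fun hd => by
      have h8 : p % e = 1 := by
        obtain ⟨k, hk⟩ := hd
        rw [show p = 1 + e * k by have := hp.pos; omega, Nat.add_mul_mod_self_left,
          Nat.mod_eq_of_lt he.one_lt]
      exact Nat.ne_of_beq_eq_false h1 h8
    have h8 := pow_gcd_eq_one.2 ⟨h5, h6⟩
    rw [h7, pow_one] at h8
    exact (div_eq_one_iff_eq hr).1 h8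
  have h2 : p % e = 1 := Nat.eq_of_beq_eq_true h1
  rw [cond_true] at h
  cases h3 : Nat.beq (Nat.mod st 2) 0 <;> rw [h3] at h
  · obtain ⟨h4, h⟩ := cond_ne h
    obtain ⟨h5, h⟩ := cond_ne h
    obtain ⟨h6, h⟩ := cond_ne' h
    have h4 := cast h4
    have h5 := cast (D := 1) (by rwa [Nat.mod_eq_of_lt hp.one_lt])
    have h7 := iter_ne hf _ _ _ _ _ h
    generalize Nat.mod (Nat.div st 2) R = r at *
    generalize Nat.mod (Nat.div (Nat.div st 2) R) R = z at *
    have h6 : (z : ZMod p) ≠ 1 := fun h0 => Nat.ne_of_beq_eq_false h6 (by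
      have := (ZMod.natCast_eq_natCast_iff' z 1 p).1 (by simpa using h0)
      rwa [Nat.mod_eq_of_lt hp.one_lt] at this)
    have : Fact e.Prime := ⟨he⟩
    have hz : IsPrimitiveRoot (z : ZMod p) e := by
      have h8 := IsPrimitiveRoot.orderOf (z : ZMod p)
      rwa [orderOf_eq_prime (p := e) (by simpa using h5) h6] at h8
    by_cases hr : (r : ZMod p) = 0
    · obtain ⟨r', st', h8, h9⟩ := h7 0 he.pos
      rw [hr, zero_pow he.ne_zero, ← hx] at h4
      exact ⟨r', st', by rw [h8, hr, zero_mul, pow_eq_zero_iff he.ne_zero |>.1 h4.symm], h9⟩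
    · obtain ⟨i, hi, h8⟩ := hz.eq_pow_of_pow_eq_one (ξ := x / r)
        (by rw [div_pow, hx, ← h4, div_self (pow_ne_zero _ hr)])
      obtain ⟨r', st', h9, h10⟩ := h7 i hi
      exact ⟨r', st', by rw [h9, h8, mul_div_cancel₀ _ hr], h10⟩
  · exfalso
    have h4 := lt_of_ble (cond_ne' h).1
    have h5 := powm_cast (D % p) p 4 (Nat.div p e)
    have h6 := powm_lt (D % p) hp.pos 4 (Nat.div p e)
    rw [ZMod.natCast_mod, ← hx, ← pow_mul, show e * Nat.div p e = p - 1 by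
      have := Nat.div_add_mod p e
      change e * (p / e) = _
      omega] at h5
    by_cases h0 : x = 0
    · rw [h0, zero_pow (by have := hp.one_lt; omega), ZMod.natCast_eq_zero_iff] at h5
      have := Nat.le_of_dvd (by omega) h5
      omega
    · rw [ZMod.pow_card_sub_one_eq_one h0] at h5
      have := (ZMod.natCast_eq_natCast_iff' _ 1 p).1 (by simpa using h5)
      rw [Nat.mod_eq_of_lt h6, Nat.mod_eq_of_lt hp.one_lt] at this
      omega

/-- Runs through all solutions of the tower equations modulo `p`. -/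
noncomputable def walk (lf : ℕ → ℕ → ℕ) (R p : ℕ) (al : Ex) (T : List (ℕ × Ex)) :
    List ℕ → ℕ → ℕ :=
  List.rec (fun vs st => lf (Nat.mod (al.evN p vs) p) st) (fun s _ ih vs st =>
    step (fun r st => ih (r :: vs) st) R p s.1 (Nat.mod (s.2.evN p vs) p) st) T

theorem walk_zero {lf : ℕ → ℕ → ℕ} (hf : ∀ r, lf r 0 = 0) (R p : ℕ) (al : Ex) :
    ∀ T vs, walk lf R p al T vs 0 = 0
  | [], _ => hf _
  | _ :: T, _ => step_zero (fun _ => walk_zero hf R p al T _) _ _ _ _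

/-- The tower equations. -/
def Tw {A : Type*} [CommRing A] (α : A) (al : Ex) : List (ℕ × Ex) → List A → Prop
  | [], xs => α = al.evR xs
  | s :: T, xs => s.1.Prime ∧ ∃ y, y ^ s.1 = s.2.evR xs ∧ Tw α al T (y :: xs)

theorem walk_ne {A : Type*} [CommRing A] {α : A} {al : Ex} {lf : ℕ → ℕ → ℕ}
    (hf : ∀ r, lf r 0 = 0) {R p : ℕ} (hp : p.Prime) (ψ : A →+* ZMod p) :
    ∀ T xs vs st, Tw α al T xs → xs.map ψ = vs.map Nat.cast → walk lf R p al T vs st ≠ 0 →
      ∃ (t : ℕ) (st' : ℕ), ψ α = t ∧ lf t st' ≠ 0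
  | [], xs, vs, st, h1, h2, h3 =>
    ⟨_, st, by rw [h1, Ex.map_evR hp.pos ψ xs vs h2]; exact (ZMod.natCast_mod _ _).symm, h3⟩
  | s :: T, xs, vs, st, ⟨h0, y, hy, h1⟩, h2, h3 => by
    obtain ⟨r, st', h4, h5⟩ := step_ne (fun _ => walk_zero hf R p al T _) hp h0 h3 (ψ y)
      (by rw [← map_pow, hy, Ex.map_evR hp.pos ψ xs vs h2])
    exact walk_ne hf hp ψ T (y :: xs) (r :: vs) st' h1 (by simp [h2, h4]) h5

/-- Runs through `k` consecutive odd numbers. -/
noncomputable def loopB (wk : ℕ → ℕ → ℕ) (Q k : ℕ) : ℕ → ℕ → Bool :=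
  Nat.rec (fun _ _ => true) (fun _ ih n st => cond (Nat.beq (Nat.gcd n Q) 1)
    (Nat.rec false (fun s _ => ih (Nat.add n 2) (Nat.succ s)) (wk n st)) (ih (Nat.add n 2) st)) k

/-- Every odd number of the interval prime to `Q` has a certificate. -/
def Cov (wk : ℕ → ℕ → ℕ) (Q a b : ℕ) : Prop :=
  ∀ p, a ≤ p → p < b → p % 2 = 1 → Nat.gcd p Q = 1 → ∃ st, wk p st ≠ 0

theorem Cov.trans {wk : ℕ → ℕ → ℕ} {Q a b c : ℕ} (h : Cov wk Q a b) (h' : Cov wk Q b c) :
    Cov wk Q a c := fun p h1 h2 => if h3 : p < b then h p h1 h3 else h' p (by omega) h2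

theorem loopB_cov (wk : ℕ → ℕ → ℕ) (Q : ℕ) : ∀ k n st, n % 2 = 1 → loopB wk Q k n st = true →
    Cov wk Q n (n + 2 * k)
  | 0, n, st, _, _ => fun p h1 h2 => by omega
  | k + 1, n, st, hn, h => by
    change cond (Nat.beq (Nat.gcd n Q) 1) (Nat.rec false (fun s _ => loopB wk Q k (n + 2) (s + 1))
      (wk n st)) (loopB wk Q k (n + 2) st) = true at h
    intro p h1 h2 h3 h4
    cases h5 : Nat.beq (Nat.gcd n Q) 1 <;> rw [h5] at h
    · have : p ≠ n := fun h6 => Nat.ne_of_beq_eq_false h5 (h6 ▸ h4)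
      exact loopB_cov wk Q k _ _ (by omega) h p (by omega) (by omega) h3 h4
    · cases h6 : wk n st with
      | zero => rw [h6] at h; exact absurd h (by simp)
      | succ s =>
        rw [h6] at h
        by_cases h7 : p = n
        · exact ⟨st, by rw [h7, h6]; omega⟩
        · exact loopB_cov wk Q k _ _ (by omega) h p (by omega) (by omega) h3 h4

/-- One stream for each block of `k` odd numbers. -/
noncomputable def loopC (wk : ℕ → ℕ → ℕ) (Q k : ℕ) (ss : List ℕ) : ℕ → Bool :=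
  List.rec (fun _ => true)
    (fun s _ ih n => cond (loopB wk Q k n s) (ih (Nat.add n (Nat.mul 2 k))) false) ss

theorem loopC_cov (wk : ℕ → ℕ → ℕ) (Q k : ℕ) : ∀ ss n, n % 2 = 1 → loopC wk Q k ss n = true →
    Cov wk Q n (n + 2 * k * ss.length)
  | [], n, _, _ => fun p h1 h2 => by simp at h2; omega
  | s :: ss, n, hn, h => by
    change cond (loopB wk Q k n s) (loopC wk Q k ss (n + 2 * k)) false = true at h
    cases h1 : loopB wk Q k n s <;> rw [h1] at h
    · exact absurd h (by simp)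
    · have := (loopB_cov wk Q k n s hn h1).trans (loopC_cov wk Q k ss _ (by omega) h)
      rwa [List.length_cons, Nat.mul_succ, Nat.add_comm (2 * k * _), ← Nat.add_assoc]

/-- The parameters of the check. -/
structure Cfg : Type where
  (n B o S m : ℕ)
  W : List ℕ
  (Off BC N64 X0 R Q : ℕ)
  al : Ex
  T : List (ℕ × Ex)

/-- The check for one rational prime. -/
noncomputable def Cfg.wk (c : Cfg) (p st : ℕ) : ℕ :=
  walk (leaf c.n c.B c.o c.S c.m c.W c.Off c.BC c.N64 c.X0 p) c.R p c.al c.T [] st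

/-- The check for an interval. -/
noncomputable def Cfg.run (c : Cfg) (k : ℕ) (ss : List ℕ) (a : ℕ) : Bool :=
  Cfg.rec (fun n B o S m W Off BC N64 X0 R Q al T => loopC
    (fun p st => walk (leaf n B o S m W Off BC N64 X0 p) R p al T [] st) Q k ss a) c

theorem Cfg.cov (c : Cfg) (a b k : ℕ) (ss : List ℕ) (h : c.run k ss a = true)
    (h1 : a % 2 = 1) (h2 : a + 2 * k * ss.length = b) : Cov c.wk c.Q a b :=
  h2 ▸ loopC_cov _ _ k ss a h1 h

variable {F : Type*} [Field F] [NumberField F] {α : 𝓞 F} {fl : List ℤ}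

theorem exists_res (q : Pr F) {p : ℕ} (hp : p.Prime) (hq : absNorm q.asIdeal = p) :
    ∃ ψ : 𝓞 F →+* ZMod p, ∀ x, ψ x = 0 → x ∈ q.asIdeal := by
  have : Finite (𝓞 F ⧸ q.asIdeal) := (absNorm_ne_zero_iff _).1 (hq ▸ hp.ne_zero)
  have := Fintype.ofFinite (𝓞 F ⧸ q.asIdeal)
  let e := ZMod.ringEquivOfPrime (𝓞 F ⧸ q.asIdeal) hp (by
    rw [← Nat.card_eq_fintype_card, ← hq]; rfl)
  exact ⟨e.symm.toRingHom.comp (Ideal.Quotient.mk _), fun x hx =>
    Ideal.Quotient.eq_zero_iff_mem.1 (e.symm.injective (hx.trans (map_zero _).symm))⟩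

theorem Cfg.rel (c : Cfg) (h : Gen α fl) {N r : ℕ} {ρ : List ℕ} {T0 a M : ℕ}
    (hc : leafOK fl N r ρ c.n c.B c.o c.S c.m c.W c.Off c.N64 c.X0 = true)
    (hT : Tw α c.al c.T []) (hQ : c.Q ∣ T0.factorial) (h2 : 2 ≤ T0) (ha : a ≤ T0 + 1)
    (hM : M < (T0 + 1) ^ 2) (hcov : Cov c.wk c.Q a (M + 1)) (q : Pr F) {p n : ℕ} (hp : p.Prime)
    (hn : 0 < n) (hq : absNorm q.asIdeal = p ^ n) (hle : p ^ n ≤ M) (hT0 : T0 < p) : Rel N q := by
  obtain rfl : n = 1 := by
    by_contra hc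
    have h1 : (T0 + 1) ^ 2 ≤ p ^ 2 := Nat.pow_le_pow_left hT0 2
    have h3 : p ^ 2 ≤ p ^ n := Nat.pow_le_pow_right hp.pos (by omega)
    omega
  rw [pow_one] at hq hle
  obtain ⟨st, hst⟩ := hcov p (by omega) (by omega) (hp.eq_two_or_odd.resolve_left (by omega))
    ((Nat.Prime.coprime_iff_not_dvd hp).2 fun hd => by
      have := hp.dvd_factorial.1 (hd.trans hQ)
      omega)
  obtain ⟨ψ, hψ⟩ := exists_res q hp hq
  obtain ⟨t, st', h3, h4⟩ := walk_ne (fun _ => leaf_zero ..) hp ψ _ _ _ _ hT rfl hst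
  exact leaf_rel h hc hp h4 q hq ψ hψ h3

end Pool.Agent.Lib.MP_ab8df0_nt.A
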